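import Mathlib

/-!
# JDef: Vinogradov's system, definitions
-/

set_option autoImplicit false

namespace Pool.Agent.H76.VK

/-- integer vectors of length `s` with coordinates in `[1, P]` -/
noncomputable def vset (s P : ℕ) : Finset (Fin s → ℤ) :=
  Fintype.piFinset fun _ => Finset.Icc 1 (P : ℤ)

/-- the vector of power sums `(∑ x_i^(j+1))_{j < k}` -/
def pw (k : ℕ) {s : ℕ} (x : Fin s → ℤ) : Fin k → ℤ := fun j => ∑ i, x i ^ ((j : ℕ) + 1)

/-- additive energy of a set of vectors: pairs with the same power sums of degrees `1, ..., k` -/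
noncomputable def en (k : ℕ) {s : ℕ} (A : Finset (Fin s → ℤ)) : ℕ :=
  ((A ×ˢ A).filter fun q => pw k q.1 = pw k q.2).card

/-- the number of solutions of Vinogradov's system of degree `k` in `2s` variables `≤ P` -/
noncomputable def J (k s P : ℕ) : ℕ := en k (vset s P)

end Pool.Agent.H76.VK
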