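import Mathlib
import Pool.Agent.H76.VK.JDef

/-!
# MxDef: mixed energies, residue classes, and elementary counting lemmas

`count_le_en`: with `r μ = #{z ∈ A : pw z = μ}` the left side is `∑_μ r(μ + v) r(μ) ≤ ∑ r^2`
(`2 r(μ+v) r(μ) ≤ r(μ+v)^2 + r(μ)^2`, sums over a finite set of `μ`, or over pairs).
`en_mono_union`: if `A ⊆ ⋃_{c ∈ I} A_c` then `r ≤ ∑ r_c`, `r^2 ≤ |I| ∑ r_c^2`.
`en_le_sq`: trivial.  `en_image_perm`: permuting the coordinates does not change `pw`.
`en_translate`: the power sums of degrees `≤ k` of `z + c` are combinations of those of `z` of lower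
or equal degree (binomial theorem; the number of variables is the same), so `pw (z+c) = pw (w+c)` iff
`pw z = pw w`.  About 150 lines.
-/

set_option autoImplicit false

namespace Pool.Agent.H76.VK

/-- pairs of pairs `(x, z), (y, w)` with `pw x + pw z = pw y + pw w` -/
noncomputable def mx (k : ℕ) {m s : ℕ} (D : Finset (Fin m → ℤ)) (A : Finset (Fin s → ℤ)) : ℕ :=
  (((D ×ˢ D) ×ˢ (A ×ˢ A)).filter fun q => pw k q.1.1 + pw k q.2.1 = pw k q.1.2 + pw k q.2.2).card

/-- vectors of `vset s P` with all coordinates congruent to `u` modulo `p` -/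
noncomputable def cls (s P p : ℕ) (u : ℤ) : Finset (Fin s → ℤ) :=
  (vset s P).filter fun z => ∀ i, (p : ℤ) ∣ z i - u

/-- vectors of `vset m P` with coordinates pairwise distinct modulo `p` -/
noncomputable def dst (m P p : ℕ) : Finset (Fin m → ℤ) :=
  (vset m P).filter fun x => ∀ i j, i ≠ j → ¬ (p : ℤ) ∣ x i - x j

/-- pairs in `D` whose shifted power sums are congruent modulo `p^(j+1)` in degree `j+1` -/
noncomputable def cg (k : ℕ) {m : ℕ} (D : Finset (Fin m → ℤ)) (p : ℕ) (u : ℤ) : ℕ :=
  ((D ×ˢ D).filter fun q => ∀ j : Fin k, (p : ℤ) ^ ((j : ℕ) + 1) ∣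
    pw k (fun i => q.1 i - u) j - pw k (fun i => q.2 i - u) j).card

/-- pairs with `f x = g y`, counted by fibres -/
theorem pairs_card {α γ β : Type*} [DecidableEq α] [DecidableEq γ] [DecidableEq β]
    (A : Finset α) (B : Finset γ) (f : α → β) (g : γ → β) (M : Finset β)
    (hM : ∀ x ∈ A, f x ∈ M) :
    ((A ×ˢ B).filter fun q => f q.1 = g q.2).card
      = ∑ μ ∈ M, (A.filter fun x => f x = μ).card * (B.filter fun y => g y = μ).card := by
  classical
  have h1 : ∀ q ∈ (A ×ˢ B).filter (fun q => f q.1 = g q.2), f q.1 ∈ M := by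
    intro q hq
    simp only [Finset.mem_filter, Finset.mem_product] at hq
    exact hM _ hq.1.1
  rw [Finset.card_eq_sum_card_fiberwise h1]
  refine Finset.sum_congr rfl fun μ _ => ?_
  rw [← Finset.card_product]
  congr 1
  ext q
  simp only [Finset.mem_filter, Finset.mem_product]
  constructor
  · rintro ⟨⟨⟨ha, hb⟩, hfg⟩, hm⟩
    exact ⟨⟨ha, hm⟩, hb, by rw [← hfg]; exact hm⟩
  · rintro ⟨⟨ha, hm⟩, hb, hg⟩
    exact ⟨⟨⟨ha, hb⟩, by rw [hm, hg]⟩, hm⟩

theorem en_eq_sum (k : ℕ) {s : ℕ} (A : Finset (Fin s → ℤ)) (M : Finset (Fin k → ℤ))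
    (hM : ∀ x ∈ A, pw k x ∈ M) :
    en k A = ∑ μ ∈ M, (A.filter fun x => pw k x = μ).card ^ 2 := by
  classical
  unfold en
  have h := pairs_card A A (pw k) (pw k) M hM
  rw [h]
  exact Finset.sum_congr rfl fun μ _ => by rw [sq]

theorem sum_le_en (k : ℕ) {s : ℕ} (A : Finset (Fin s → ℤ)) (M : Finset (Fin k → ℤ)) :
    ∑ μ ∈ M, (A.filter fun x => pw k x = μ).card ^ 2 ≤ en k A := by
  classical
  rw [en_eq_sum k A (M ∪ A.image (pw k)) (fun x hx =>
    Finset.mem_union_right _ (Finset.mem_image_of_mem _ hx))]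
  exact Finset.sum_le_sum_of_subset Finset.subset_union_left

theorem count_le_en (k : ℕ) {s : ℕ} (A : Finset (Fin s → ℤ)) (v : Fin k → ℤ) :
    ((A ×ˢ A).filter fun q => pw k q.1 = pw k q.2 + v).card ≤ en k A := by
  classical
  have h := pairs_card A A (pw k) (fun y => pw k y + v) (A.image (pw k))
    (fun x hx => Finset.mem_image_of_mem _ hx)
  rw [h]
  have h1 : ∑ μ ∈ A.image (pw k), (A.filter fun y => pw k y + v = μ).card ^ 2 ≤ en k A := by
    have h2 : ∑ μ ∈ A.image (pw k), (A.filter fun y => pw k y + v = μ).card ^ 2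
        = ∑ ν ∈ (A.image (pw k)).image (fun μ => μ - v),
            (A.filter fun y => pw k y = ν).card ^ 2 := by
      rw [Finset.sum_image (fun a _ b _ hab => sub_left_injective hab)]
      refine Finset.sum_congr rfl fun μ _ => ?_
      congr 2
      ext y
      simp only [Finset.mem_filter, eq_sub_iff_add_eq]
    rw [h2]
    exact sum_le_en k A _
  have h3 := sum_le_en k A (A.image (pw k))
  have h4 : 2 * ∑ μ ∈ A.image (pw k), (A.filter fun x => pw k x = μ).card *
      (A.filter fun y => pw k y + v = μ).card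
      ≤ ∑ μ ∈ A.image (pw k), (A.filter fun x => pw k x = μ).card ^ 2
        + ∑ μ ∈ A.image (pw k), (A.filter fun y => pw k y + v = μ).card ^ 2 := by
    rw [Finset.mul_sum, ← Finset.sum_add_distrib]
    refine Finset.sum_le_sum fun μ _ => ?_
    have := two_mul_le_add_sq (A.filter fun x => pw k x = μ).card
      (A.filter fun y => pw k y + v = μ).card
    rw [← mul_assoc]
    exact this
  omega

theorem en_union (k : ℕ) {s : ℕ} {ι : Type} [DecidableEq ι] (I : Finset ι)
    (A : Finset (Fin s → ℤ)) (B : ι → Finset (Fin s → ℤ)) (h : ∀ x ∈ A, ∃ c ∈ I, x ∈ B c) :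
    en k A ≤ I.card * ∑ c ∈ I, en k (B c) := by
  classical
  rw [en_eq_sum k A (A.image (pw k)) (fun x hx => Finset.mem_image_of_mem _ hx)]
  have h1 : ∀ μ, (A.filter fun x => pw k x = μ).card
      ≤ ∑ c ∈ I, ((B c).filter fun x => pw k x = μ).card := by
    intro μ
    refine le_trans (Finset.card_le_card ?_) Finset.card_biUnion_le
    intro x hx
    rw [Finset.mem_filter] at hx
    obtain ⟨c, hc, hxc⟩ := h x hx.1
    exact Finset.mem_biUnion.2 ⟨c, hc, Finset.mem_filter.2 ⟨hxc, hx.2⟩⟩
  calc ∑ μ ∈ A.image (pw k), (A.filter fun x => pw k x = μ).card ^ 2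
      ≤ ∑ μ ∈ A.image (pw k), I.card * ∑ c ∈ I, ((B c).filter fun x => pw k x = μ).card ^ 2 := by
        refine Finset.sum_le_sum fun μ _ => ?_
        exact le_trans (Nat.pow_le_pow_left (h1 μ) 2) sq_sum_le_card_mul_sum_sq
    _ = I.card * ∑ c ∈ I, ∑ μ ∈ A.image (pw k), ((B c).filter fun x => pw k x = μ).card ^ 2 := by
        rw [← Finset.mul_sum, Finset.sum_comm]
    _ ≤ I.card * ∑ c ∈ I, en k (B c) :=
        Nat.mul_le_mul_left _ (Finset.sum_le_sum fun c _ => sum_le_en k (B c) _)

theorem en_le_sq (k : ℕ) {s : ℕ} (A : Finset (Fin s → ℤ)) : en k A ≤ A.card ^ 2 := by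
  unfold en
  refine le_trans (Finset.card_filter_le _ _) ?_
  rw [Finset.card_product, sq]

/-- energy of an injective image which keeps the relation -/
theorem en_image (k : ℕ) {s t : ℕ} (A : Finset (Fin s → ℤ)) (φ : (Fin s → ℤ) → (Fin t → ℤ))
    (hφ : Function.Injective φ) (h : ∀ x y, pw k (φ x) = pw k (φ y) ↔ pw k x = pw k y) :
    en k (A.image φ) = en k A := by
  classical
  unfold en
  have h1 : ((A.image φ ×ˢ A.image φ).filter fun q => pw k q.1 = pw k q.2)
      = ((A ×ˢ A).filter fun q => pw k q.1 = pw k q.2).image (Prod.map φ φ) := by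
    ext ⟨a, b⟩
    simp only [Finset.mem_filter, Finset.mem_product, Finset.mem_image, Prod.map_apply,
      Prod.mk.injEq, Prod.exists]
    constructor
    · rintro ⟨⟨⟨x, hx, rfl⟩, y, hy, rfl⟩, he⟩
      exact ⟨x, y, ⟨⟨hx, hy⟩, (h x y).1 he⟩, rfl, rfl⟩
    · rintro ⟨x, y, ⟨⟨hx, hy⟩, he⟩, rfl, rfl⟩
      exact ⟨⟨⟨x, hx, rfl⟩, y, hy, rfl⟩, (h x y).2 he⟩
  rw [h1, Finset.card_image_of_injective _ (hφ.prodMap hφ)]

theorem en_perm (k : ℕ) {s : ℕ} (A : Finset (Fin s → ℤ)) (σ : Equiv.Perm (Fin s)) :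
    en k (A.image fun x => x ∘ σ) = en k A := by
  have hp : ∀ x : Fin s → ℤ, pw k (x ∘ σ) = pw k x := by
    intro x
    funext j
    exact Equiv.sum_comp σ (fun i => x i ^ ((j : ℕ) + 1))
  refine en_image k A (fun x => x ∘ σ) (σ.surjective.injective_comp_right) ?_
  intro x y
  rw [hp, hp]

/-- translation invariance -/
theorem pw_translate (k : ℕ) {s : ℕ} (z w : Fin s → ℤ) (c : ℤ) (h : pw k z = pw k w) :
    pw k (fun i => z i + c) = pw k (fun i => w i + c) := by
  funext j
  have hm : ∀ m : ℕ, m ≤ (j : ℕ) + 1 → ∑ i, z i ^ m = ∑ i, w i ^ m := by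
    intro m hm
    rcases m with _ | m
    · simp
    · have hj : m < k := by have := j.2; omega
      exact congrFun h ⟨m, hj⟩
  have hx : ∀ x : Fin s → ℤ, pw k (fun i => x i + c) j
      = ∑ m ∈ Finset.range ((j : ℕ) + 1 + 1),
          (∑ i, x i ^ m) * (c ^ ((j : ℕ) + 1 - m) * (((j : ℕ) + 1).choose m : ℤ)) := by
    intro x
    unfold pw
    simp only [add_pow]
    rw [Finset.sum_comm]
    refine Finset.sum_congr rfl fun m _ => ?_
    rw [Finset.sum_mul]
    exact Finset.sum_congr rfl fun i _ => by ring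
  rw [hx z, hx w]
  refine Finset.sum_congr rfl fun m hmr => ?_
  rw [hm m (by have := Finset.mem_range.1 hmr; omega)]

/-- vectors in an interval of length `L`: energy `J k s L` -/
theorem en_interval (k s L : ℕ) (a : ℤ) :
    en k (Fintype.piFinset fun _ : Fin s => Finset.Icc (a + 1) (a + L)) = J k s L := by
  classical
  have h1 : (Fintype.piFinset fun _ : Fin s => Finset.Icc (a + 1) (a + L))
      = (vset s L).image (fun x i => x i + a) := by
    ext y
    simp only [vset, Fintype.mem_piFinset, Finset.mem_Icc, Finset.mem_image]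
    constructor
    · intro hy
      refine ⟨fun i => y i - a, fun i => ⟨?_, ?_⟩, ?_⟩
      · have := (hy i).1
        show 1 ≤ y i - a
        omega
      · have := (hy i).2
        show y i - a ≤ (L : ℤ)
        omega
      · funext i; simp
    · rintro ⟨x, hx, rfl⟩ i
      have h3 := hx i
      constructor
      · show a + 1 ≤ x i + a
        have := h3.1
        omega
      · show x i + a ≤ a + (L : ℤ)
        have := h3.2
        omega
  rw [h1]
  unfold J
  refine en_image k (vset s L) (fun x i => x i + a) ?_ ?_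
  · intro x y hxy
    funext i
    have := congrFun hxy i
    simpa using this
  · intro x y
    constructor
    · intro h
      have h2 := pw_translate k (fun i => x i + a) (fun i => y i + a) (-a) h
      simpa using h2
    · intro h
      exact pw_translate k x y a h

theorem J_mono (k s : ℕ) {L L' : ℕ} (h : L ≤ L') : J k s L ≤ J k s L' := by
  unfold J en
  have h1 : vset s L ⊆ vset s L' := by
    unfold vset
    refine Fintype.piFinset_subset _ _ fun _ => ?_
    exact Finset.Icc_subset_Icc_right (by exact_mod_cast h)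
  exact Finset.card_le_card (Finset.filter_subset_filter _ (Finset.product_subset_product h1 h1))

end Pool.Agent.H76.VK
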