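import Mathlib
import Pool.Agent.H76.VK.MxDef

/-!
# CongB: the variables in one residue class force congruences

Let `z, w ∈ cls s P p u`, `z_i = u + p z'_i`, `w_i = u + p w'_i`; the `z'_i` are the integers with
`1 ≤ u + p z' ≤ P`, they lie in an interval `[a+1, a+L]`, `L = P/p + 1` (at most that many).
Translate all variables by `-u` (`pw_translate` for the vectors `(x,z)`, `(y,w)` of length `m + s`;
`pw (Fin.append x z) = pw x + pw z`): `pw (x-u) + pw (z-u) = pw (y-u) + pw (w-u)`, and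
`pw (z-u) j = p^(j+1) pw z' j`.  So `(x,y)` is counted by `cg`, and for fixed `(x,y)` the `(z',w')`
satisfy `pw z' = pw w' + v` with a fixed `v`: at most `en k (interval box) = J k s L`
(`count_le_en`, `en_interval`).  About 130 lines.
-/

set_option autoImplicit false

namespace Pool.Agent.H76.VK

private lemma cb_append (k : ℕ) {m s : ℕ} (x : Fin m → ℤ) (z : Fin s → ℤ) :
    pw k (Fin.append x z) = pw k x + pw k z := by
  funext j
  simp [pw, Fin.sum_univ_add]

/-- joint translation invariance -/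
private lemma cb_translate (k : ℕ) {m s : ℕ} (x y : Fin m → ℤ) (z w : Fin s → ℤ) (c : ℤ)
    (h : pw k x + pw k z = pw k y + pw k w) :
    pw k (fun i => x i - c) + pw k (fun i => z i - c) =
      pw k (fun i => y i - c) + pw k (fun i => w i - c) := by
  have h1 := pw_translate k (Fin.append x z) (Fin.append y w) (-c)
    (by rw [cb_append, cb_append, h])
  have h2 : ∀ (x : Fin m → ℤ) (z : Fin s → ℤ), (fun i => Fin.append x z i + -c) =
      Fin.append (fun i => x i - c) (fun i => z i - c) := by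
    intro x z
    funext i
    refine Fin.addCases (fun i => ?_) (fun i => ?_) i
    · simp [sub_eq_add_neg]
    · simp [sub_eq_add_neg]
  rw [h2, h2, cb_append, cb_append] at h1
  exact h1

private def cbq {s : ℕ} (p : ℕ) (u : ℤ) (z : Fin s → ℤ) : Fin s → ℤ := fun i => (z i - u) / p

private lemma cbq_pw (k : ℕ) {s P p : ℕ} (hp : 0 < p) (u : ℤ) (z : Fin s → ℤ)
    (hz : z ∈ cls s P p u) (j : Fin k) :
    pw k (fun i => z i - u) j = (p : ℤ) ^ ((j : ℕ) + 1) * pw k (cbq p u z) j := by
  have hp' : (p : ℤ) ≠ 0 := by exact_mod_cast hp.ne'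
  rw [cls, Finset.mem_filter] at hz
  unfold pw cbq
  rw [Finset.mul_sum]
  refine Finset.sum_congr rfl fun i _ => ?_
  obtain ⟨t, ht⟩ := hz.2 i
  show (z i - u) ^ ((j : ℕ) + 1) = _
  rw [ht, Int.mul_ediv_cancel_left _ hp', mul_pow]

private lemma cbq_mem {s P p : ℕ} (hp : 0 < p) (u : ℤ) (z : Fin s → ℤ)
    (hz : z ∈ cls s P p u) :
    cbq p u z ∈ Fintype.piFinset fun _ : Fin s =>
      Finset.Icc (((-u) / (p : ℤ)) + 1) (((-u) / (p : ℤ)) + ((P / p + 1 : ℕ) : ℤ)) := by
  have hp' : (0 : ℤ) < p := by exact_mod_cast hp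
  rw [cls, Finset.mem_filter, vset] at hz
  have hz1 := Fintype.mem_piFinset.1 hz.1
  rw [Fintype.mem_piFinset]
  intro i
  have h1 := Finset.mem_Icc.1 (hz1 i)
  obtain ⟨t, ht⟩ := hz.2 i
  have h2 : cbq p u z i = t := by
    unfold cbq
    rw [ht, Int.mul_ediv_cancel_left _ hp'.ne']
  rw [h2, Finset.mem_Icc]
  have h3 : -u = (p : ℤ) * ((-u) / (p : ℤ)) + (-u) % (p : ℤ) := (Int.mul_ediv_add_emod _ _).symm
  have h4 := Int.emod_nonneg (-u) hp'.ne'
  have h5 := Int.emod_lt_of_pos (-u) hp'
  have h6 : (P : ℤ) = (p : ℤ) * ((P / p : ℕ) : ℤ) + ((P % p : ℕ) : ℤ) := by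
    exact_mod_cast (Nat.div_add_mod P p).symm
  have h7 : ((P % p : ℕ) : ℤ) < p := by exact_mod_cast Nat.mod_lt P hp
  have h8 : ((P % p : ℕ) : ℤ) ≥ 0 := by positivity
  set a := (-u) / (p : ℤ) with ha
  set r := (-u) % (p : ℤ) with hr
  set b := ((P / p : ℕ) : ℤ) with hb
  constructor
  · by_contra hc
    push Not at hc
    have : t ≤ a := by omega
    nlinarith
  · have h9 : ((P / p + 1 : ℕ) : ℤ) = b + 1 := by rw [hb]; exact Nat.cast_succ _
    rw [h9]
    by_contra hc
    push Not at hc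
    have : a + b + 2 ≤ t := by omega
    nlinarith

private lemma cbq_inj {s P p : ℕ} (hp : 0 < p) (u : ℤ) (z z' : Fin s → ℤ)
    (hz : z ∈ cls s P p u) (hz' : z' ∈ cls s P p u) (h : cbq p u z = cbq p u z') : z = z' := by
  have hp' : (p : ℤ) ≠ 0 := by exact_mod_cast hp.ne'
  rw [cls, Finset.mem_filter] at hz hz'
  funext i
  have h1 := congrFun h i
  unfold cbq at h1
  obtain ⟨t, ht⟩ := hz.2 i
  obtain ⟨t', ht'⟩ := hz'.2 i
  rw [ht, ht', Int.mul_ediv_cancel_left _ hp', Int.mul_ediv_cancel_left _ hp'] at h1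
  have : z i - u = z' i - u := by rw [ht, ht', h1]
  linarith

theorem congB {k m s P p : ℕ} (hp : 0 < p) (u : ℤ) (D : Finset (Fin m → ℤ)) :
    mx k D (cls s P p u) ≤ cg k D p u * J k s (P / p + 1) := by
  classical
  have hp' : (0 : ℤ) < p := by exact_mod_cast hp
  unfold mx cg
  set S := ((D ×ˢ D) ×ˢ (cls s P p u ×ˢ cls s P p u)).filter
    fun q => pw k q.1.1 + pw k q.2.1 = pw k q.1.2 + pw k q.2.2 with hS
  have hcong : ∀ q ∈ S, ∀ j : Fin k,
      pw k (fun i => q.1.1 i - u) j - pw k (fun i => q.1.2 i - u) j =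
        (p : ℤ) ^ ((j : ℕ) + 1) * (pw k (cbq p u q.2.2) j - pw k (cbq p u q.2.1) j) := by
    intro q hq j
    rw [hS, Finset.mem_filter, Finset.mem_product, Finset.mem_product, Finset.mem_product] at hq
    have h1 := congrFun (cb_translate k q.1.1 q.1.2 q.2.1 q.2.2 u hq.2) j
    simp only [Pi.add_apply] at h1
    rw [cbq_pw k hp u q.2.1 hq.1.2.1 j, cbq_pw k hp u q.2.2 hq.1.2.2 j] at h1
    linarith
  have key := Finset.card_le_mul_card_image_of_maps_to (s := S)
    (t := (D ×ˢ D).filter fun q => ∀ j : Fin k, (p : ℤ) ^ ((j : ℕ) + 1) ∣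
      pw k (fun i => q.1 i - u) j - pw k (fun i => q.2 i - u) j)
    (f := fun q => q.1) ?_ (J k s (P / p + 1)) ?_
  · rw [mul_comm]
    exact key
  · intro q hq
    rw [Finset.mem_filter]
    have hq' := hq
    rw [hS, Finset.mem_filter, Finset.mem_product] at hq'
    refine ⟨hq'.1.1, fun j => ?_⟩
    rw [hcong q hq j]
    exact dvd_mul_right _ _
  · rintro ⟨x, y⟩ _
    rcases Finset.eq_empty_or_nonempty (S.filter fun q => q.1 = (x, y)) with h0 | h0
    · rw [h0]
      simp
    · obtain ⟨q0, h1⟩ := h0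
      rw [← en_interval k s (P / p + 1) ((-u) / (p : ℤ))]
      refine le_trans ?_ (count_le_en k _ (pw k (cbq p u q0.2.1) - pw k (cbq p u q0.2.2)))
      refine Finset.card_le_card_of_injOn (fun q => (cbq p u q.2.1, cbq p u q.2.2)) ?_ ?_
      · intro q hq
        have hq1 := Finset.mem_filter.1 (Finset.mem_coe.1 hq)
        have h01 := Finset.mem_filter.1 h1
        have hqS := hq1.1
        rw [hS, Finset.mem_filter, Finset.mem_product, Finset.mem_product,
          Finset.mem_product] at hqS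
        refine Finset.mem_coe.2 (Finset.mem_filter.2 ⟨Finset.mem_product.2
          ⟨cbq_mem hp u _ hqS.1.2.1, cbq_mem hp u _ hqS.1.2.2⟩, ?_⟩)
        funext j
        have e1 := hcong q hq1.1 j
        have e2 := hcong q0 h01.1 j
        have e3 : (p : ℤ) ^ ((j : ℕ) + 1) ≠ 0 := by positivity
        rw [hq1.2] at e1
        rw [h01.2] at e2
        have e4 := mul_left_cancel₀ e3 (e1.symm.trans e2)
        simp only [Pi.add_apply, Pi.sub_apply]
        linarith
      · intro q hq q' hq' h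
        have hq1 := Finset.mem_filter.1 (Finset.mem_coe.1 hq)
        have hq1' := Finset.mem_filter.1 (Finset.mem_coe.1 hq')
        have hqS := hq1.1
        have hqS' := hq1'.1
        rw [hS, Finset.mem_filter, Finset.mem_product, Finset.mem_product,
          Finset.mem_product] at hqS hqS'
        simp only [Prod.mk.injEq] at h
        have g1 := cbq_inj hp u _ _ hqS.1.2.1 hqS'.1.2.1 h.1
        have g2 := cbq_inj hp u _ _ hqS.1.2.2 hqS'.1.2.2 h.2
        exact Prod.ext (hq1.2.trans hq1'.2.symm) (Prod.ext g1 g2)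

end Pool.Agent.H76.VK
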