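import Mathlib
import Pool.Agent.H76.VK.MxDef

/-!
# Cover: `k` coordinates distinct modulo a prime

Let `n = k + s`.  For `x ∈ vset n P`: if `x` has at most `k-1` distinct values it is in `A0`,
`|A0| ≤ (k P)^(k-1) k^(n)`-like: choose the values (at most `P^(k-1)`, a function
`Fin (k-1) → [1,P]`) and for each coordinate its value (at most `(k-1)^n`), so
`|A0| ≤ P^(k-1) k^n`.
Otherwise there is an injection `pos : Fin k → Fin n` such that `x ∘ pos` is injective, and
`∏_{i<j} (x_(pos i) - x_(pos j)) ≠ 0` has absolute value `< P^(k(k-1)/2) ≤ Q^(k·k(k-1)/2)`, so fewer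
than `k^3 ≤ |Ps|` primes `> Q` divide it: some `p ∈ Ps` has `x ∘ pos` distinct modulo `p`
(`A_(p,pos)`).  `en_union` with the index set `Option (Ps × (Fin k → Fin n))`,
`1 + |Ps| n^k` indices; `en (A_(p,pos)) = en (A_(p,std))` (`en_perm`, `pos` extends to a permutation),
and `en k (A_(p,std)) = mx k (dst k P p) (vset s P)` (`x ↔ (x∘castAdd, x∘natAdd)`, `Fin.append`).
So `J k (k+s) P ≤ (1 + |Ps| n^k)^2 max ((P^(k-1) k^n)^2) (max_p mx ..)`.  About 200 lines.
-/

set_option autoImplicit false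

namespace Pool.Agent.H76.VK

private lemma card_vset' (s P : ℕ) : (vset s P).card = P ^ s := by
  rw [vset, Fintype.card_piFinset]
  simp

private lemma en_mono {k s : ℕ} {A B : Finset (Fin s → ℤ)} (h : A ⊆ B) : en k A ≤ en k B := by
  apply Finset.card_le_card
  intro q hq
  rw [Finset.mem_filter, Finset.mem_product] at hq ⊢
  exact ⟨⟨h hq.1.1, h hq.1.2⟩, hq.2⟩

private lemma exists_prime {k P Q : ℕ} (hk : 1 ≤ k) (hP : 1 ≤ P) (Ps : Finset ℕ)
    (hPs : ∀ p ∈ Ps, p.Prime ∧ Q < p) (hcard : k ^ 3 ≤ Ps.card) (hQ : P ≤ Q ^ k)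
    (z : Fin k → ℤ) (hz : Function.Injective z) (hzP : ∀ i, z i ∈ Finset.Icc 1 (P : ℤ)) :
    ∃ p ∈ Ps, ∀ i j, i ≠ j → ¬ (p : ℤ) ∣ z i - z j := by
  classical
  by_contra hcon
  push Not at hcon
  set I : Finset (Fin k × Fin k) := (Finset.univ : Finset (Fin k)).offDiag with hI
  set D : ℤ := ∏ q ∈ I, (z q.1 - z q.2) with hD
  have hQ0 : 1 ≤ Q := by
    rcases Nat.eq_zero_or_pos Q with h | h
    · subst h
      rw [zero_pow (by omega)] at hQ
      omega
    · exact h
  have hD0 : D ≠ 0 := by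
    rw [hD, Finset.prod_ne_zero_iff]
    intro q hq
    rw [hI, Finset.mem_offDiag] at hq
    rw [sub_ne_zero]
    exact fun h => hq.2.2 (hz h)
  have hdiv : ∀ p ∈ Ps, p ∣ D.natAbs := by
    intro p hp
    obtain ⟨i, j, hij, hd⟩ := hcon p hp
    rw [← Int.natCast_dvd]
    refine hd.trans ?_
    have : (i, j) ∈ I := by
      rw [hI, Finset.mem_offDiag]
      exact ⟨Finset.mem_univ _, Finset.mem_univ _, hij⟩
    exact Finset.dvd_prod_of_mem (fun q : Fin k × Fin k => z q.1 - z q.2) this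
  have h1 : ∏ p ∈ Ps, p ∣ D.natAbs :=
    Finset.prod_primes_dvd _ (fun p hp => (hPs p hp).1.prime) hdiv
  have h2 : ∏ p ∈ Ps, p ≤ D.natAbs :=
    Nat.le_of_dvd (Int.natAbs_pos.2 hD0) h1
  have h3 : (Q + 1) ^ Ps.card ≤ ∏ p ∈ Ps, p := by
    rw [← Finset.prod_const]
    exact Finset.prod_le_prod (fun _ _ => Nat.zero_le _) (fun p hp => (hPs p hp).2)
  have h4 : |D| ≤ (P : ℤ) ^ I.card := by
    rw [hD, Finset.abs_prod, ← Finset.prod_const]
    apply Finset.prod_le_prod (fun _ _ => abs_nonneg _)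
    intro q _
    have a := Finset.mem_Icc.1 (hzP q.1)
    have b := Finset.mem_Icc.1 (hzP q.2)
    rw [abs_le]
    constructor <;> linarith [a.1, a.2, b.1, b.2]
  have h5 : D.natAbs ≤ P ^ I.card := by
    have : ((D.natAbs : ℕ) : ℤ) ≤ ((P ^ I.card : ℕ) : ℤ) := by
      rw [Int.natCast_natAbs]
      push_cast
      exact h4
    exact_mod_cast this
  have h6 : I.card ≤ k ^ 2 := by
    have : I.card ≤ (Finset.univ : Finset (Fin k × Fin k)).card := Finset.card_le_univ _
    rw [Finset.card_univ, Fintype.card_prod, Fintype.card_fin] at this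
    rw [sq]
    exact this
  have h7 : P ^ I.card ≤ Q ^ Ps.card := by
    calc P ^ I.card ≤ P ^ (k ^ 2) := Nat.pow_le_pow_right hP h6
      _ ≤ (Q ^ k) ^ (k ^ 2) := Nat.pow_le_pow_left hQ _
      _ = Q ^ (k ^ 3) := by rw [← pow_mul]; congr 1; ring
      _ ≤ Q ^ Ps.card := Nat.pow_le_pow_right hQ0 hcard
  have h8 : Q ^ Ps.card < (Q + 1) ^ Ps.card := by
    apply Nat.pow_lt_pow_left (Nat.lt_succ_self Q)
    have : 1 ≤ k ^ 3 := Nat.one_le_pow _ _ hk
    omega
  omega

private lemma exists_pos {k n : ℕ} (x : Fin n → ℤ) (h : k ≤ (Finset.univ.image x).card) :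
    ∃ pos : Fin k → Fin n, Function.Injective pos ∧ Function.Injective (x ∘ pos) := by
  classical
  obtain ⟨T, hT, hTc⟩ := Finset.exists_subset_card_eq h
  have e := T.equivFinOfCardEq hTc
  have hx : ∀ i : Fin k, ∃ a : Fin n, x a = (e.symm i : ℤ) := by
    intro i
    have := hT (e.symm i).2
    rw [Finset.mem_image] at this
    obtain ⟨a, _, ha⟩ := this
    exact ⟨a, ha⟩
  choose pos hpos using hx
  have hinj : Function.Injective (x ∘ pos) := by
    intro i j hij
    simp only [Function.comp] at hij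
    rw [hpos, hpos] at hij
    exact e.symm.injective (Subtype.ext hij)
  exact ⟨pos, hinj.of_comp, hinj⟩

private lemma card_few {k n P : ℕ} (hn : 1 ≤ n) :
    ((vset n P).filter fun x => (Finset.univ.image x).card < k).card ≤ P ^ (k - 1) * k ^ n := by
  classical
  have hsub : ((vset n P).filter fun x => (Finset.univ.image x).card < k) ⊆
      (vset (k - 1) P ×ˢ (Finset.univ : Finset (Fin n → Fin (k - 1)))).image
        (fun r => (r.1 ∘ r.2 : Fin n → ℤ)) := by
    intro x hx
    rw [Finset.mem_filter] at hx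
    obtain ⟨hx1, hx2⟩ := hx
    have hx3 := Fintype.mem_piFinset.1 hx1
    set V := Finset.univ.image x with hV
    have hmem : ∀ j, x j ∈ V := fun j => Finset.mem_image_of_mem _ (Finset.mem_univ _)
    have hle : V.card ≤ k - 1 := by omega
    let g := V.equivFin
    let x0 : ℤ := x ⟨0, hn⟩
    let v : Fin (k - 1) → ℤ := fun i =>
      if h : (i : ℕ) < V.card then ((g.symm ⟨i, h⟩ : V) : ℤ) else x0
    let τ : Fin n → Fin (k - 1) := fun j => Fin.castLE hle (g ⟨x j, hmem j⟩)
    rw [Finset.mem_image]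
    refine ⟨(v, τ), ?_, ?_⟩
    · rw [Finset.mem_product]
      refine ⟨?_, Finset.mem_univ _⟩
      show v ∈ vset (k - 1) P
      rw [vset, Fintype.mem_piFinset]
      intro i
      show v i ∈ _
      by_cases h : (i : ℕ) < V.card
      · have h1 : v i = ((g.symm ⟨i, h⟩ : V) : ℤ) := dif_pos h
        rw [h1]
        have h2 : ((g.symm ⟨i, h⟩ : V) : ℤ) ∈ V := (g.symm ⟨i, h⟩ : V).2
        obtain ⟨a, _, ha⟩ := Finset.mem_image.1 h2
        rw [← ha]
        exact hx3 a
      · have h1 : v i = x0 := dif_neg h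
        rw [h1]
        exact hx3 _
    · funext j
      show v (τ j) = x j
      have h : ((τ j : Fin (k - 1)) : ℕ) < V.card := (g ⟨x j, hmem j⟩).2
      have h1 : v (τ j) = ((g.symm ⟨(τ j : ℕ), h⟩ : V) : ℤ) := dif_pos h
      rw [h1]
      have h2 : (⟨(τ j : ℕ), h⟩ : Fin V.card) = g ⟨x j, hmem j⟩ := Fin.ext rfl
      rw [h2, Equiv.symm_apply_apply]
  calc _ ≤ _ := Finset.card_le_card hsub
    _ ≤ _ := Finset.card_image_le
    _ = P ^ (k - 1) * (k - 1) ^ n := by
      rw [Finset.card_product, card_vset', Finset.card_univ, Fintype.card_pi]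
      simp
    _ ≤ P ^ (k - 1) * k ^ n := by
      apply Nat.mul_le_mul_left
      exact Nat.pow_le_pow_left (Nat.sub_le _ _) _

private noncomputable def Bp (k s P p : ℕ) (pos : Fin k → Fin (k + s)) :
    Finset (Fin (k + s) → ℤ) :=
  (vset (k + s) P).filter fun x => ∀ i j, i ≠ j → ¬ (p : ℤ) ∣ x (pos i) - x (pos j)

private lemma pw_add (k s : ℕ) (x : Fin (k + s) → ℤ) :
    pw k x = pw k (x ∘ Fin.castAdd s) + pw k (x ∘ Fin.natAdd k) := by
  funext j
  simp only [pw, Pi.add_apply, Function.comp]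
  rw [Fin.sum_univ_add]

private lemma en_std (k s P p : ℕ) :
    en k (Bp k s P p (Fin.castAdd s)) ≤ mx k (dst k P p) (vset s P) := by
  classical
  rw [en, mx]
  apply Finset.card_le_card_of_injOn
    (fun q => ((q.1 ∘ Fin.castAdd s, q.2 ∘ Fin.castAdd s), (q.1 ∘ Fin.natAdd k, q.2 ∘ Fin.natAdd k)))
  · rintro ⟨x, y⟩ h
    rw [Finset.mem_coe, Finset.mem_filter, Finset.mem_product] at h
    obtain ⟨⟨h1, h2⟩, h3⟩ := h
    simp only [Bp, Finset.mem_filter] at h1 h2
    have h1v := Fintype.mem_piFinset.1 h1.1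
    have h2v := Fintype.mem_piFinset.1 h2.1
    rw [Finset.mem_coe, Finset.mem_filter]
    refine ⟨?_, ?_⟩
    · simp only [Finset.mem_product, dst, Finset.mem_filter, vset, Fintype.mem_piFinset]
      exact ⟨⟨⟨fun a => h1v _, h1.2⟩, ⟨fun a => h2v _, h2.2⟩⟩, ⟨fun a => h1v _, fun a => h2v _⟩⟩
    · show pw k (x ∘ Fin.castAdd s) + pw k (x ∘ Fin.natAdd k) =
        pw k (y ∘ Fin.castAdd s) + pw k (y ∘ Fin.natAdd k)
      rw [← pw_add, ← pw_add]
      exact h3
  · rintro ⟨x, y⟩ _ ⟨x', y'⟩ _ h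
    simp only [Prod.mk.injEq] at h
    obtain ⟨⟨h1, h2⟩, h3, h4⟩ := h
    have key : ∀ a b : Fin (k + s) → ℤ, a ∘ Fin.castAdd s = b ∘ Fin.castAdd s →
        a ∘ Fin.natAdd k = b ∘ Fin.natAdd k → a = b := by
      intro a b hab hab'
      funext i
      refine Fin.addCases (fun i => ?_) (fun i => ?_) i
      · exact congrFun hab i
      · exact congrFun hab' i
    rw [key x x' h1 h3, key y y' h2 h4]

private lemma exists_ext {k s : ℕ} (pos : Fin k → Fin (k + s)) (h : Function.Injective pos) :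
    ∃ σ : Equiv.Perm (Fin (k + s)), ∀ i, σ (Fin.castAdd s i) = pos i := by
  classical
  have hc : Function.Injective (Fin.castAdd s : Fin k → Fin (k + s)) :=
    Fin.castAdd_injective k s
  let e : {x // x ∈ Set.range (Fin.castAdd s : Fin k → Fin (k + s))} ≃ {x // x ∈ Set.range pos} :=
    (Equiv.ofInjective _ hc).symm.trans (Equiv.ofInjective _ h)
  refine ⟨e.extendSubtype, fun i => ?_⟩
  have hi : Fin.castAdd s i ∈ Set.range (Fin.castAdd s : Fin k → Fin (k + s)) := ⟨i, rfl⟩
  rw [Equiv.extendSubtype_apply_of_mem e _ hi]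
  show ((Equiv.ofInjective _ h) ((Equiv.ofInjective _ hc).symm ⟨Fin.castAdd s i, hi⟩) : Fin (k + s)) = _
  have : (Equiv.ofInjective _ hc).symm ⟨Fin.castAdd s i, hi⟩ = i :=
    Equiv.ofInjective_symm_apply hc i
  rw [this]
  rfl

private lemma en_pos (k s P p : ℕ) (pos : Fin k → Fin (k + s)) (h : Function.Injective pos) :
    en k (Bp k s P p pos) ≤ mx k (dst k P p) (vset s P) := by
  classical
  obtain ⟨σ, hσ⟩ := exists_ext pos h
  rw [← en_perm k (Bp k s P p pos) σ]
  refine (en_mono ?_).trans (en_std k s P p)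
  intro y hy
  rw [Finset.mem_image] at hy
  obtain ⟨x, hx, rfl⟩ := hy
  simp only [Bp, Finset.mem_filter] at hx ⊢
  have hxv := Fintype.mem_piFinset.1 hx.1
  refine ⟨?_, ?_⟩
  · rw [vset, Fintype.mem_piFinset]
    intro a
    exact hxv _
  · intro i j hij
    show ¬ (p : ℤ) ∣ x (σ (Fin.castAdd s i)) - x (σ (Fin.castAdd s j))
    rw [hσ, hσ]
    exact hx.2 i j hij

theorem cover {k s P Q : ℕ} (hk : 1 ≤ k) (hP : 1 ≤ P) (Ps : Finset ℕ)
    (hPs : ∀ p ∈ Ps, p.Prime ∧ Q < p) (hcard : k ^ 3 ≤ Ps.card) (hQ : P ≤ Q ^ k) :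
    ∃ p ∈ Ps, J k (k + s) P ≤ (1 + Ps.card * (k + s) ^ k) ^ 2 *
      max ((P ^ (k - 1) * k ^ (k + s)) ^ 2) (mx k (dst k P p) (vset s P)) := by
  classical
  have hne : Ps.Nonempty := by
    rw [← Finset.card_pos]
    have : 1 ≤ k ^ 3 := Nat.one_le_pow _ _ hk
    omega
  obtain ⟨p, hp, hmax⟩ := Finset.exists_max_image Ps
    (fun p => mx k (dst k P p) (vset s P)) hne
  refine ⟨p, hp, ?_⟩
  set M := max ((P ^ (k - 1) * k ^ (k + s)) ^ 2) (mx k (dst k P p) (vset s P)) with hM
  let inj : Finset (Fin k → Fin (k + s)) := Finset.univ.filter fun f => Function.Injective f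
  let I : Finset (Option (ℕ × (Fin k → Fin (k + s)))) := Finset.insertNone (Ps ×ˢ inj)
  let B : Option (ℕ × (Fin k → Fin (k + s))) → Finset (Fin (k + s) → ℤ) := fun c =>
    match c with
    | none => (vset (k + s) P).filter fun x => (Finset.univ.image x).card < k
    | some q => Bp k s P q.1 q.2
  have hcov : ∀ x ∈ vset (k + s) P, ∃ c ∈ I, x ∈ B c := by
    intro x hx
    by_cases h : (Finset.univ.image x).card < k
    · refine ⟨none, ?_, ?_⟩
      · simp [I]
      · show x ∈ (vset (k + s) P).filter fun x => (Finset.univ.image x).card < k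
        rw [Finset.mem_filter]
        exact ⟨hx, h⟩
    · obtain ⟨pos, hpos, hxp⟩ := exists_pos x (not_lt.1 h)
      obtain ⟨p', hp', hd⟩ := exists_prime hk hP Ps hPs hcard hQ (x ∘ pos) hxp
        (fun i => Fintype.mem_piFinset.1 hx _)
      refine ⟨some (p', pos), ?_, ?_⟩
      · simp [I, inj, hp', hpos]
      · show x ∈ Bp k s P p' pos
        rw [Bp, Finset.mem_filter]
        exact ⟨hx, hd⟩
  have h1 : J k (k + s) P ≤ I.card * ∑ c ∈ I, en k (B c) := en_union k I _ B hcov
  have h2 : ∀ c ∈ I, en k (B c) ≤ M := by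
    intro c hc
    rcases c with _ | ⟨p', pos⟩
    · refine (en_le_sq k _).trans ?_
      refine le_trans ?_ (le_max_left _ _)
      exact Nat.pow_le_pow_left (card_few (by omega)) 2
    · have hc' : p' ∈ Ps ∧ Function.Injective pos := by
        simpa [I, inj] using hc
      refine (en_pos k s P p' pos hc'.2).trans ?_
      exact (hmax p' hc'.1).trans (le_max_right _ _)
  have h3 : ∑ c ∈ I, en k (B c) ≤ I.card * M := by
    have := Finset.sum_le_card_nsmul I (fun c => en k (B c)) M h2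
    simpa using this
  have h4 : I.card ≤ 1 + Ps.card * (k + s) ^ k := by
    have h5 : inj.card ≤ (k + s) ^ k := by
      have : inj.card ≤ (Finset.univ : Finset (Fin k → Fin (k + s))).card :=
        Finset.card_le_card (Finset.filter_subset _ _)
      rw [Finset.card_univ, Fintype.card_pi] at this
      simpa using this
    have h6 : I.card = (Ps ×ˢ inj).card + 1 := Finset.card_insertNone _
    rw [h6, Finset.card_product]
    have := Nat.mul_le_mul_left Ps.card h5
    omega
  calc J k (k + s) P ≤ I.card * (I.card * M) := h1.trans (Nat.mul_le_mul_left _ h3)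
    _ = I.card ^ 2 * M := by ring
    _ ≤ (1 + Ps.card * (k + s) ^ k) ^ 2 * M :=
      Nat.mul_le_mul_right _ (Nat.pow_le_pow_left h4 2)

end Pool.Agent.H76.VK
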