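import Mathlib

/-!
# Newton: power sums determine the polynomial modulo `p^k`, `p > k`

`MvPolynomial.psum`, `MvPolynomial.esymm`, Newton's identities (`MvPolynomial.mul_esymm_eq_sum`):
`j e_j = ± ∑_{i<j} ± e_i p_{j-i}`; `j ≤ k < p` is invertible modulo `p^k`, so by induction the
elementary symmetric functions of `x` and `y` agree, hence the polynomials
(`Multiset.prod_X_sub_C_eq_sum_esymm` or `MvPolynomial.prod_C_add_X...`).
`perm_of_prod`: evaluate at `y i`: `∏_j (y_i - x_j) = 0` in `ZMod (p^k)`.  The `x_j` are distinct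
modulo `p`, so at most one of the factors is divisible by `p`, the others are units: `y_i = x_j` for
some `j` (if no factor is divisible by `p` the product is a unit, and `0` is a unit only if `k = 0`,
excluded).  `newton_int`: the same over `ℤ` (or `ℚ`) without distinctness: the root multisets agree.
About 170 lines.
-/

set_option autoImplicit false

open Polynomial

namespace Pool.Agent.H76.VK

/-- The value of the elementary symmetric polynomial. -/
noncomputable def nwev {R : Type*} [CommRing R] {k : ℕ} (x : Fin k → R) (j : ℕ) : R :=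
  MvPolynomial.aeval x (MvPolynomial.esymm (Fin k) R j)

theorem nwrec {R : Type*} [CommRing R] {k : ℕ} (x : Fin k → R) (j : ℕ) :
    (j : R) * nwev x j = (-1) ^ (j + 1) * ∑ a ∈ Finset.HasAntidiagonal.antidiagonal j with a.1 < j,
      (-1) ^ a.1 * nwev x a.1 * ∑ i, x i ^ a.2 := by
  have h := congrArg (MvPolynomial.aeval x) (MvPolynomial.mul_esymm_eq_sum (Fin k) R j)
  simpa [nwev, MvPolynomial.psum, map_sum, map_mul, map_pow] using h

theorem nweq {R : Type*} [CommRing R] {k : ℕ} (x y : Fin k → R)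
    (hu : ∀ j : ℕ, 1 ≤ j → j ≤ k → ∀ a b : R, (j : R) * a = (j : R) * b → a = b)
    (h : ∀ j : ℕ, 1 ≤ j → j ≤ k → ∑ i, x i ^ j = ∑ i, y i ^ j) (j : ℕ) (hj : j ≤ k) :
    nwev x j = nwev y j := by
  induction j using Nat.strong_induction_on with
  | _ j ih =>
    rcases Nat.eq_zero_or_pos j with h0 | h0
    · subst h0
      simp [nwev, MvPolynomial.esymm_zero]
    · apply hu j h0 hj
      rw [nwrec, nwrec]
      congr 1
      apply Finset.sum_congr rfl
      intro a ha
      rw [Finset.mem_filter, Finset.HasAntidiagonal.mem_antidiagonal] at ha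
      rw [ih a.1 ha.2 (by omega), h a.2 (by omega) (by omega)]

theorem nwprod {R : Type*} [CommRing R] {k : ℕ} (x y : Fin k → R)
    (h : ∀ j : ℕ, j ≤ k → nwev x j = nwev y j) :
    ∏ i, (X - C (x i)) = ∏ i, (X - C (y i)) := by
  have key : ∀ z : Fin k → R, ∏ i, (X - C (z i)) =
      ∑ j ∈ Finset.range (k + 1), (-1) ^ j * (C (nwev z j) * X ^ (k - j)) := by
    intro z
    have h1 := Multiset.prod_X_sub_X_eq_sum_esymm (Finset.univ.val.map z)
    rw [Multiset.map_map, Multiset.card_map, Finset.card_val, Finset.card_univ,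
      Fintype.card_fin] at h1
    have h2 : (Multiset.map ((fun t => X - C t) ∘ z) Finset.univ.val).prod =
        ∏ i, (X - C (z i)) := rfl
    rw [h2] at h1
    rw [h1]
    apply Finset.sum_congr rfl
    intro j _
    rw [nwev, MvPolynomial.aeval_esymm_eq_multiset_esymm]
  rw [key x, key y]
  apply Finset.sum_congr rfl
  intro j hj
  rw [Finset.mem_range] at hj
  rw [h j (by omega)]

theorem newton_zmod {p k : ℕ} (hp : p.Prime) (hk : k < p) (x y : Fin k → ZMod (p ^ k))
    (h : ∀ j : ℕ, 1 ≤ j → j ≤ k → ∑ i, x i ^ j = ∑ i, y i ^ j) :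
    ∏ i, (X - C (x i)) = ∏ i, (X - C (y i)) := by
  apply nwprod
  intro j hj
  apply nweq x y _ h j hj
  intro j h1 h2 a b hab
  have hc : Nat.Coprime j (p ^ k) := by
    apply Nat.Coprime.pow_right
    rw [Nat.coprime_comm]
    exact (Nat.Prime.coprime_iff_not_dvd hp).mpr (Nat.not_dvd_of_pos_of_lt h1 (by omega))
  have hu : IsUnit ((j : ℕ) : ZMod (p ^ k)) := (ZMod.isUnit_iff_coprime j (p ^ k)).mpr hc
  exact hu.mul_left_cancel hab

theorem perm_of_prod {p k : ℕ} (hp : p.Prime) (hk1 : 1 ≤ k) (x y : Fin k → ℤ)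
    (hx : ∀ i j, i ≠ j → ¬ (p : ℤ) ∣ x i - x j)
    (h : ∏ i, (X - C ((x i : ℤ) : ZMod (p ^ k))) = ∏ i, (X - C ((y i : ℤ) : ZMod (p ^ k)))) :
    ∀ i, ∃ j, ((y i : ℤ) : ZMod (p ^ k)) = ((x j : ℤ) : ZMod (p ^ k)) := by
  intro i
  have h1 := congrArg (Polynomial.eval ((y i : ℤ) : ZMod (p ^ k))) h
  rw [Polynomial.eval_prod, Polynomial.eval_prod] at h1
  have h2 : ∏ j, Polynomial.eval ((y i : ℤ) : ZMod (p ^ k))
      (X - C ((y j : ℤ) : ZMod (p ^ k))) = 0 := by
    apply Finset.prod_eq_zero (Finset.mem_univ i)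
    simp
  rw [h2] at h1
  simp only [Polynomial.eval_sub, Polynomial.eval_X, Polynomial.eval_C] at h1
  have hZ : (p : ℤ) ^ k ∣ ∏ j, (y i - x j) := by
    have h3 : (((∏ j, (y i - x j) : ℤ)) : ZMod (p ^ k)) = 0 := by
      push_cast
      exact h1
    have h4 := (ZMod.intCast_zmod_eq_zero_iff_dvd _ (p ^ k)).mp h3
    push_cast at h4
    exact h4
  have hpi : Prime (p : ℤ) := Nat.prime_iff_prime_int.mp hp
  have hpd : (p : ℤ) ∣ ∏ j, (y i - x j) := dvd_trans (dvd_pow_self _ (by omega)) hZ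
  obtain ⟨j, _, hj⟩ := hpi.exists_mem_finset_dvd hpd
  refine ⟨j, ?_⟩
  have hrest : ∀ j' ∈ Finset.univ.erase j, ¬ (p : ℤ) ∣ y i - x j' := by
    intro j' hj' hd
    rw [Finset.mem_erase] at hj'
    apply hx j j' (Ne.symm hj'.1)
    have := dvd_sub hd hj
    have h5 : y i - x j' - (y i - x j) = x j - x j' := by ring
    rwa [h5] at this
  have hco : IsCoprime ((p : ℤ) ^ k) (∏ j' ∈ Finset.univ.erase j, (y i - x j')) := by
    apply IsCoprime.pow_left
    apply IsCoprime.prod_right
    intro j' hj'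
    exact (Prime.coprime_iff_not_dvd hpi).mpr (hrest j' hj')
  rw [← Finset.mul_prod_erase _ _ (Finset.mem_univ j)] at hZ
  have h6 : (p : ℤ) ^ k ∣ y i - x j := hco.dvd_of_dvd_mul_right hZ
  have h7 : (((y i - x j : ℤ)) : ZMod (p ^ k)) = 0 := by
    rw [ZMod.intCast_zmod_eq_zero_iff_dvd]
    push_cast
    exact h6
  push_cast at h7
  exact sub_eq_zero.mp h7

theorem newton_int {k : ℕ} (x y : Fin k → ℤ)
    (h : ∀ j : ℕ, 1 ≤ j → j ≤ k → ∑ i, x i ^ j = ∑ i, y i ^ j) :
    ∃ σ : Equiv.Perm (Fin k), y = x ∘ σ := by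
  have h1 : ∏ i, (X - C (x i)) = ∏ i, (X - C (y i)) := by
    apply nwprod
    intro j hj
    apply nweq x y _ h j hj
    intro j h1 _ a b hab
    have hj0 : ((j : ℕ) : ℤ) ≠ 0 := by
      have : 0 < j := h1
      exact_mod_cast this.ne'
    exact mul_left_cancel₀ hj0 hab
  have h2 : ∀ z : Fin k → ℤ, (∏ i, (X - C (z i))).roots = Finset.univ.val.map z := by
    intro z
    have h3 : ∏ i, (X - C (z i)) = (Multiset.map (fun a => X - C a)
        (Finset.univ.val.map z)).prod := by
      rw [Multiset.map_map]; rfl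
    rw [h3, Polynomial.roots_multiset_prod_X_sub_C]
  have h3 : Finset.univ.val.map x = Finset.univ.val.map y := by
    rw [← h2 x, ← h2 y, h1]
  have h4 : ∀ z : Fin k → ℤ, ((List.ofFn z : List ℤ) : Multiset ℤ) = Finset.univ.val.map z := by
    intro z
    rw [List.ofFn_eq_map, ← Multiset.map_coe]
    rfl
  have h5 : (List.ofFn x).Perm (List.ofFn y) := by
    rw [← Multiset.coe_eq_coe, h4, h4, h3]
  have h6 : x ∘ Tuple.sort x = y ∘ Tuple.sort y := by
    apply List.ofFn_injective
    have hp1 := (Equiv.Perm.ofFn_comp_perm (Tuple.sort x) x).trans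
      (h5.trans (Equiv.Perm.ofFn_comp_perm (Tuple.sort y) y).symm)
    exact hp1.eq_of_pairwise' (Tuple.monotone_sort x).sortedLE_ofFn.pairwise
      (Tuple.monotone_sort y).sortedLE_ofFn.pairwise
  refine ⟨(Tuple.sort y).symm.trans (Tuple.sort x), ?_⟩
  funext i
  have h7 := congrFun h6 ((Tuple.sort y).symm i)
  simp only [Function.comp_apply, Equiv.apply_symm_apply] at h7
  simp only [Function.comp_apply, Equiv.trans_apply]
  exact h7.symm

end Pool.Agent.H76.VK
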