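import Mathlib
import Pool.Agent.H76.VK.MxDef
import Pool.Agent.H76.VK.Newton

/-!
# Linnik: the number of solutions of the congruences

Fix `y ∈ dst k P p` (at most `P^k` choices).  For `x ∈ dst k P p` with the congruences let
`λ_j ∈ ZMod (p^k)` be the class of `pw (x-u) j`, `j < k`: it is congruent to `pw (y-u) j` modulo
`p^(j+1)`, so there are at most `p^(k-j-1)` values, together `∏_j p^(k-j-1) = p^(k(k-1)/2)` vectors.
For a fixed vector `λ` any two such `x, x'` satisfy `pw (x-u) ≡ pw (x'-u)` modulo `p^k` in all degrees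
`≤ k`; by `newton_zmod` and `perm_of_prod` every `x'_i` is congruent to some `x_j` modulo `p^k`, and
since both are in `[1, P]`, `P ≤ p^k`, equal to `x_j`.  The `x'_i` are distinct: `x'` is obtained from
a permutation of `x`, at most `k!` vectors.  About 150 lines.
-/

set_option autoImplicit false

namespace Pool.Agent.H76.VK

private lemma card_vset' (s P : ℕ) : (vset s P).card = P ^ s := by
  rw [vset, Fintype.card_piFinset]
  simp

private noncomputable def mu (k p : ℕ) (u : ℤ) (q : (Fin k → ℤ) × (Fin k → ℤ)) : Fin k → ℤ :=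
  fun j => ((pw k (fun i => q.1 i - u) j - pw k (fun i => q.2 i - u) j) /
    (p : ℤ) ^ ((j : ℕ) + 1)) % (p : ℤ) ^ (k - 1 - (j : ℕ))

private lemma mu_mem {k p : ℕ} (hp : p.Prime) (u : ℤ) (q : (Fin k → ℤ) × (Fin k → ℤ)) :
    mu k p u q ∈ Fintype.piFinset fun j : Fin k =>
      Finset.Ico (0 : ℤ) ((p ^ (k - 1 - (j : ℕ)) : ℕ) : ℤ) := by
  rw [Fintype.mem_piFinset]
  intro j
  have h0 : (0 : ℤ) < (p : ℤ) ^ (k - 1 - (j : ℕ)) := by
    have : (0 : ℤ) < p := by exact_mod_cast hp.pos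
    positivity
  rw [Finset.mem_Ico]
  refine ⟨Int.emod_nonneg _ h0.ne', ?_⟩
  push_cast
  exact Int.emod_lt_of_pos _ h0

private lemma card_pi (k p : ℕ) : (Fintype.piFinset fun j : Fin k =>
    Finset.Ico (0 : ℤ) ((p ^ (k - 1 - (j : ℕ)) : ℕ) : ℤ)).card = p ^ (k * (k - 1) / 2) := by
  rw [Fintype.card_piFinset]
  have h1 : ∀ j : Fin k, (Finset.Ico (0 : ℤ) ((p ^ (k - 1 - (j : ℕ)) : ℕ) : ℤ)).card =
      p ^ (k - 1 - (j : ℕ)) := by
    intro j
    rw [Int.card_Ico, sub_zero, Int.toNat_natCast]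
  rw [Finset.prod_congr rfl fun j _ => h1 j,
    Fin.prod_univ_eq_prod_range (fun j => p ^ (k - 1 - j)) k, Finset.prod_pow_eq_pow_sum,
    Finset.sum_range_reflect (fun j => j) k, Finset.sum_range_id]

private lemma pow_dvd_of_mu {k p : ℕ} {u : ℤ} {x x0 y : Fin k → ℤ} (hp : p.Prime)
    (hx : ∀ j : Fin k, (p : ℤ) ^ ((j : ℕ) + 1) ∣
      pw k (fun i => x i - u) j - pw k (fun i => y i - u) j)
    (hx0 : ∀ j : Fin k, (p : ℤ) ^ ((j : ℕ) + 1) ∣
      pw k (fun i => x0 i - u) j - pw k (fun i => y i - u) j)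
    (h : mu k p u (x, y) = mu k p u (x0, y)) (j : Fin k) :
    (p : ℤ) ^ k ∣ pw k (fun i => x i - u) j - pw k (fun i => x0 i - u) j := by
  have hp0 : (0 : ℤ) < (p : ℤ) ^ ((j : ℕ) + 1) := by
    have : (0 : ℤ) < p := by exact_mod_cast hp.pos
    positivity
  obtain ⟨a, ha⟩ := hx j
  obtain ⟨a0, ha0⟩ := hx0 j
  have h1 := congrFun h j
  simp only [mu] at h1
  rw [ha, ha0, Int.mul_ediv_cancel_left _ hp0.ne', Int.mul_ediv_cancel_left _ hp0.ne'] at h1
  have h2 : (p : ℤ) ^ (k - 1 - (j : ℕ)) ∣ a - a0 := by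
    have h3 : a ≡ a0 [ZMOD (p : ℤ) ^ (k - 1 - (j : ℕ))] := h1
    exact h3.symm.dvd
  obtain ⟨b, hb⟩ := h2
  refine ⟨b, ?_⟩
  have h4 : pw k (fun i => x i - u) j - pw k (fun i => x0 i - u) j =
      (p : ℤ) ^ ((j : ℕ) + 1) * (a - a0) := by
    rw [mul_sub, ← ha, ← ha0]
    ring
  rw [h4, hb, ← mul_assoc, ← pow_add]
  congr 2
  have := j.2
  omega

private lemma exists_perm {k P p : ℕ} (hp : p.Prime) (hk1 : 1 ≤ k) (hk : k < p)
    (hP : P ≤ p ^ k) {u : ℤ} {x x0 : Fin k → ℤ} (hx : x ∈ dst k P p) (hx0 : x0 ∈ dst k P p)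
    (h : ∀ j : Fin k, (p : ℤ) ^ k ∣ pw k (fun i => x i - u) j - pw k (fun i => x0 i - u) j) :
    ∃ σ : Equiv.Perm (Fin k), x = x0 ∘ σ := by
  rw [dst, Finset.mem_filter] at hx hx0
  have hxv := (Fintype.mem_piFinset.1 hx.1)
  have hx0v := (Fintype.mem_piFinset.1 hx0.1)
  have hsum : ∀ j : ℕ, 1 ≤ j → j ≤ k →
      ∑ i, (((x0 i - u : ℤ)) : ZMod (p ^ k)) ^ j = ∑ i, (((x i - u : ℤ)) : ZMod (p ^ k)) ^ j := by
    intro j h1 h2
    have h3 := h ⟨j - 1, by omega⟩
    have h4 : j - 1 + 1 = j := by omega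
    simp only [pw, h4] at h3
    have h5 : ((∑ i, (x0 i - u) ^ j : ℤ) : ZMod (p ^ k)) = ((∑ i, (x i - u) ^ j : ℤ) : ZMod (p ^ k)) := by
      rw [ZMod.intCast_eq_intCast_iff_dvd_sub]
      push_cast
      exact h3
    simpa only [Int.cast_sum, Int.cast_pow] using h5
  have hprod := newton_zmod hp hk (fun i => (((x0 i - u : ℤ)) : ZMod (p ^ k)))
    (fun i => (((x i - u : ℤ)) : ZMod (p ^ k))) hsum
  have hex := perm_of_prod hp hk1 (fun i => x0 i - u) (fun i => x i - u)
    (fun i j hij => by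
      have := hx0.2 i j hij
      simpa using this) hprod
  have hex2 : ∀ i, ∃ j, x i = x0 j := by
    intro i
    obtain ⟨j, hj⟩ := hex i
    refine ⟨j, ?_⟩
    rw [ZMod.intCast_eq_intCast_iff_dvd_sub] at hj
    have h6 : ((p ^ k : ℕ) : ℤ) ∣ x0 j - x i := by
      have : x0 j - u - (x i - u) = x0 j - x i := by ring
      rwa [this] at hj
    have h7 := Finset.mem_Icc.1 (hxv i)
    have h8 := Finset.mem_Icc.1 (hx0v j)
    have hP' : (P : ℤ) ≤ ((p ^ k : ℕ) : ℤ) := by exact_mod_cast hP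
    have h9 : |x0 j - x i| < ((p ^ k : ℕ) : ℤ) := by
      rw [abs_lt]
      constructor <;> linarith [h7.1, h7.2, h8.1, h8.2]
    have := Int.eq_zero_of_abs_lt_dvd h6 h9
    linarith
  choose τ hτ using hex2
  have hinj : Function.Injective τ := by
    intro i i' hii
    by_contra hne
    apply hx.2 i i' hne
    rw [hτ i, hτ i', hii, sub_self]
    exact dvd_zero _
  refine ⟨Equiv.ofBijective τ (Finite.injective_iff_bijective.1 hinj), ?_⟩
  funext i
  exact hτ i

theorem linnik {k P p : ℕ} (hp : p.Prime) (hk1 : 1 ≤ k) (hk : k < p) (hP : P ≤ p ^ k) (u : ℤ) :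
    cg k (dst k P p) p u ≤ P ^ k * (k.factorial * p ^ (k * (k - 1) / 2)) := by
  classical
  rw [cg]
  set S := ((dst k P p ×ˢ dst k P p).filter fun q => ∀ j : Fin k, (p : ℤ) ^ ((j : ℕ) + 1) ∣
    pw k (fun i => q.1 i - u) j - pw k (fun i => q.2 i - u) j) with hS
  have key := Finset.card_le_mul_card_image_of_maps_to (s := S)
    (t := vset k P ×ˢ (Fintype.piFinset fun j : Fin k =>
      Finset.Ico (0 : ℤ) ((p ^ (k - 1 - (j : ℕ)) : ℕ) : ℤ)))
    (f := fun q => (q.2, mu k p u q)) ?_ k.factorial ?_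
  · rw [Finset.card_product, card_pi, card_vset'] at key
    calc S.card ≤ k.factorial * (P ^ k * p ^ (k * (k - 1) / 2)) := key
      _ = P ^ k * (k.factorial * p ^ (k * (k - 1) / 2)) := by ring
  · intro q hq
    rw [hS, Finset.mem_filter, Finset.mem_product] at hq
    rw [Finset.mem_product]
    refine ⟨?_, mu_mem hp u q⟩
    have := hq.1.2
    rw [dst, Finset.mem_filter] at this
    exact this.1
  · rintro ⟨y, b⟩ _
    rcases Finset.eq_empty_or_nonempty (S.filter fun q => (q.2, mu k p u q) = (y, b)) with h0 | h0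
    · rw [h0]
      simp
    · obtain ⟨⟨x0, y0⟩, h1⟩ := h0
      have hsub : (S.filter fun q => (q.2, mu k p u q) = (y, b)) ⊆
          Finset.image (fun σ : Equiv.Perm (Fin k) => ((x0 ∘ σ : Fin k → ℤ), y))
            Finset.univ := by
        rintro ⟨x, y'⟩ h2
        rw [Finset.mem_filter, hS, Finset.mem_filter, Finset.mem_product] at h1 h2
        obtain ⟨⟨h1a, h1b⟩, h1c⟩ := h1
        obtain ⟨⟨h2a, h2b⟩, h2c⟩ := h2
        simp only [Prod.mk.injEq] at h1c h2c
        obtain ⟨rfl, h1d⟩ := h1c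
        obtain ⟨rfl, h2d⟩ := h2c
        obtain ⟨σ, hσ⟩ := exists_perm (u := u) hp hk1 hk hP h2a.1 h1a.1
          (fun j => pow_dvd_of_mu hp h2b h1b (h2d.trans h1d.symm) j)
        rw [Finset.mem_image]
        exact ⟨σ, Finset.mem_univ _, by rw [← hσ]⟩
      calc (S.filter fun q => (q.2, mu k p u q) = (y, b)).card ≤ _ := Finset.card_le_card hsub
        _ ≤ (Finset.univ : Finset (Equiv.Perm (Fin k))).card := Finset.card_image_le
        _ = k.factorial := by rw [Finset.card_univ, Fintype.card_perm, Fintype.card_fin]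

/-- the base case -/
theorem J_base (k P : ℕ) : J k k P ≤ k.factorial * P ^ k := by
  classical
  rw [J, en]
  have hsub : ((vset k P ×ˢ vset k P).filter fun q => pw k q.1 = pw k q.2) ⊆
      ((Finset.univ : Finset (Equiv.Perm (Fin k))) ×ˢ vset k P).image
        fun r => (r.2, r.2 ∘ r.1) := by
    rintro ⟨x, y⟩ h
    rw [Finset.mem_filter, Finset.mem_product] at h
    obtain ⟨σ, hσ⟩ := newton_int x y (fun j h1 h2 => by
      have := congrFun h.2 ⟨j - 1, by omega⟩
      have h4 : j - 1 + 1 = j := by omega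
      simpa only [pw, h4] using this)
    rw [Finset.mem_image]
    exact ⟨(σ, x), by simp [h.1.1], by rw [hσ]⟩
  calc _ ≤ _ := Finset.card_le_card hsub
    _ ≤ _ := Finset.card_image_le
    _ = k.factorial * P ^ k := by
      rw [Finset.card_product, card_vset', Finset.card_univ, Fintype.card_perm, Fintype.card_fin]

end Pool.Agent.H76.VK
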