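import Mathlib

/-!
# ManyP: `k^3` primes in `(Q, 2Q]` for `Q ≥ C k^4`

From the proof of Bertrand's postulate: `4^Q/(2Q) ≤ centralBinom Q`
(`Nat.four_pow_lt_mul_centralBinom`), in its factorisation the primes `≤ √(2Q)` contribute at most
`(2Q)^(√(2Q))` (`Nat.factorization_choose_le_log`, `pow_factorization_choose_le`), the primes in
`(√(2Q), 2Q/3]` at most `∏ p ≤ 4^(2Q/3)` (`primorial_le_4_pow`), no primes in `(2Q/3, Q]`
(`Nat.factorization_centralBinom_of_two_mul_self_lt_three_mul`), so the primes in `(Q, 2Q]` have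
product `≥ 4^(Q/3)/((2Q)^(√(2Q)+1))`, hence their number is at least
`((Q/3) log 4)/log(2Q) - √(2Q) - 1 ≥ Q/(10 log Q) ≥ k^3` for `Q ≥ C k^4`.
(If the library contains a prime number theorem or Chebyshev bound use that.)  About 120 lines.
-/

set_option autoImplicit false

namespace Pool.Agent.H76.VK

open Nat in
/-- The central binomial coefficient against the number of primes in `(n, 2n]`. -/
private theorem manyP_binom (n : ℕ) (n_large : 2 < n) :
    centralBinom n ≤ (2 * n) ^ sqrt (2 * n) * 4 ^ (2 * n / 3) *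
      (2 * n) ^ ((Finset.Ioc n (2 * n)).filter Nat.Prime).card := by
  have n_pos : 0 < n := (Nat.zero_le _).trans_lt n_large
  have n2_pos : 1 ≤ 2 * n := mul_pos (zero_lt_two' ℕ) n_pos
  let S := {p ∈ Finset.range (2 * n / 3 + 1) | Nat.Prime p}
  let U := (Finset.Ioc n (2 * n)).filter Nat.Prime
  let f x := x ^ n.centralBinom.factorization x
  have hdisj : Disjoint S U := by
    rw [Finset.disjoint_left]
    intro x hx hx'
    have h1 := Finset.mem_range.1 (Finset.mem_filter.1 hx).1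
    have h2 := (Finset.mem_Ioc.1 (Finset.mem_filter.1 hx').1).1
    omega
  have hprod : centralBinom n = (∏ x ∈ S, f x) * ∏ x ∈ U, f x := by
    rw [← Finset.prod_union hdisj]
    refine (Eq.trans ?_ n.prod_pow_factorization_centralBinom).symm
    apply Finset.prod_subset
    · intro x hx
      rw [Finset.mem_range]
      rcases Finset.mem_union.1 hx with hx | hx
      · have h1 := Finset.mem_range.1 (Finset.mem_filter.1 hx).1
        omega
      · have h2 := (Finset.mem_Ioc.1 (Finset.mem_filter.1 hx).1).2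
        omega
    · intro x hx h2x
      rw [Finset.mem_range, Nat.lt_succ_iff] at hx
      by_cases hp : x.Prime
      · have h1 : ¬ (x < 2 * n / 3 + 1) := fun h =>
          h2x (Finset.mem_union_left _ (Finset.mem_filter.2 ⟨Finset.mem_range.2 h, hp⟩))
        have h2 : x ≤ n := by
          by_contra h
          exact h2x (Finset.mem_union_right _
            (Finset.mem_filter.2 ⟨Finset.mem_Ioc.2 ⟨by omega, hx⟩, hp⟩))
        have h3 : 2 * n < 3 * x := by omega
        change x ^ n.centralBinom.factorization x = 1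
        rw [factorization_centralBinom_of_two_mul_self_lt_three_mul n_large h2 h3, Nat.pow_zero]
      · change x ^ n.centralBinom.factorization x = 1
        rw [factorization_eq_zero_of_not_prime n.centralBinom hp, Nat.pow_zero]
  rw [hprod]
  apply mul_le_mul'
  · rw [← Finset.prod_filter_mul_prod_filter_not S (· ≤ sqrt (2 * n))]
    apply mul_le_mul'
    · refine (Finset.prod_le_prod' fun p _ => (?_ : f p ≤ 2 * n)).trans ?_
      · exact pow_factorization_choose_le (mul_pos two_pos n_pos)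
      have : (Finset.Icc 1 (sqrt (2 * n))).card = sqrt (2 * n) := by
        rw [card_Icc, Nat.add_sub_cancel]
      rw [Finset.prod_const]
      refine pow_right_mono₀ n2_pos ((Finset.card_le_card fun x hx => ?_).trans this.le)
      obtain ⟨h1, h2⟩ := Finset.mem_filter.1 hx
      exact Finset.mem_Icc.mpr ⟨(Finset.mem_filter.1 h1).2.one_lt.le, h2⟩
    · refine le_trans ?_ (primorial_le_four_pow (2 * n / 3))
      refine (Finset.prod_le_prod' fun p hp => (?_ : f p ≤ p)).trans ?_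
      · obtain ⟨h1, h2⟩ := Finset.mem_filter.1 hp
        refine (pow_right_mono₀ (Finset.mem_filter.1 h1).2.one_lt.le ?_).trans (pow_one p).le
        exact Nat.factorization_choose_le_one (sqrt_lt'.mp <| not_le.1 h2)
      refine Finset.prod_le_prod_of_subset_of_one_le' (Finset.filter_subset _ _) ?_
      exact fun p hp _ => (Finset.mem_filter.1 hp).2.one_lt.le
  · refine (Finset.prod_le_prod' fun p _ => (?_ : f p ≤ 2 * n)).trans ?_
    · exact pow_factorization_choose_le (mul_pos two_pos n_pos)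
    · rw [Finset.prod_const]

theorem many_primes : ∃ C : ℕ, 1 ≤ C ∧ ∀ k Q : ℕ, 1 ≤ k → C * k ^ 4 ≤ Q →
    k ^ 3 ≤ ((Finset.Ioc Q (2 * Q)).filter Nat.Prime).card := by
  refine ⟨2 ^ 27, by norm_num, ?_⟩
  intro k Q hk hQ
  by_contra hcon
  push Not at hcon
  have hk4 : 1 ≤ k ^ 4 := Nat.one_le_pow _ _ hk
  have hQ27 : 2 ^ 27 ≤ Q := le_trans (by nlinarith) hQ
  have hQ0 : 0 < Q := lt_of_lt_of_le (by norm_num) hQ27
  have hQ4 : 4 ≤ Q := le_trans (by norm_num) hQ27
  set π := ((Finset.Ioc Q (2 * Q)).filter Nat.Prime).card with hπ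
  have h1 : 4 ^ Q < Q * Q.centralBinom := Nat.four_pow_lt_mul_centralBinom Q hQ4
  have h2 := manyP_binom Q (by omega)
  have h3 : 4 ^ Q < (2 * Q) ^ (Nat.sqrt (2 * Q) + π + 1) * 4 ^ (2 * Q / 3) := by
    calc 4 ^ Q < Q * Q.centralBinom := h1
      _ ≤ (2 * Q) * ((2 * Q) ^ Nat.sqrt (2 * Q) * 4 ^ (2 * Q / 3) * (2 * Q) ^ π) :=
        Nat.mul_le_mul (by omega) h2
      _ = (2 * Q) ^ (Nat.sqrt (2 * Q) + π + 1) * 4 ^ (2 * Q / 3) := by ring
  -- real logarithms
  have hQR : (0 : ℝ) < Q := by exact_mod_cast hQ0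
  have h4 : (Q : ℝ) * Real.log 4 <
      ((Nat.sqrt (2 * Q) : ℝ) + π + 1) * Real.log (2 * Q) + (2 * Q / 3) * Real.log 4 := by
    have h5 : ((4 : ℝ) ^ Q) < (2 * (Q : ℝ)) ^ (Nat.sqrt (2 * Q) + π + 1) * 4 ^ (2 * Q / 3) := by
      exact_mod_cast h3
    have h6 := Real.log_lt_log (by positivity) h5
    rw [Real.log_mul (by positivity) (by positivity), Real.log_pow, Real.log_pow,
      Real.log_pow] at h6
    have h7 : (((2 * Q / 3 : ℕ)) : ℝ) ≤ 2 * Q / 3 := by
      have := @Nat.cast_div_le ℝ _ _ _ (2 * Q) 3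
      simpa using this
    have h8 : 0 ≤ Real.log 4 := Real.log_nonneg (by norm_num)
    have h9 := mul_le_mul_of_nonneg_right h7 h8
    push_cast at h6
    linarith
  -- the fourth root
  set x : ℝ := (2 * (Q : ℝ)) ^ ((1 : ℝ) / 4) with hx
  have hx0 : 0 < x := by positivity
  have hx4 : x ^ 4 = 2 * Q := by
    rw [hx, ← Real.rpow_natCast, ← Real.rpow_mul (by positivity)]
    norm_num
  have hlog : Real.log (2 * Q) ≤ 4 * x := by
    rw [← hx4, Real.log_pow]
    have := Real.log_le_sub_one_of_pos hx0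
    push_cast
    linarith
  have hlogpos : 0 ≤ Real.log (2 * Q) := by
    apply Real.log_nonneg
    have : (1 : ℝ) ≤ Q := by exact_mod_cast hQ0
    linarith
  have hkx : 128 * (k : ℝ) ≤ x := by
    have hQk : ((2 : ℝ) ^ 27) * (k : ℝ) ^ 4 ≤ Q := by exact_mod_cast hQ
    have : (128 * (k : ℝ)) ^ 4 ≤ x ^ 4 := by
      rw [hx4, mul_pow]
      have h9 : (128 : ℝ) ^ 4 * (k : ℝ) ^ 4 = 2 * ((2 : ℝ) ^ 27 * (k : ℝ) ^ 4) := by ring
      rw [h9]
      linarith
    exact le_of_pow_le_pow_left₀ (by norm_num) hx0.le this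
  have hk1 : (1 : ℝ) ≤ k := by exact_mod_cast hk
  have hx128 : 128 ≤ x := by nlinarith
  have hsqrt : (Nat.sqrt (2 * Q) : ℝ) ≤ x ^ 2 := by
    have h5 : Nat.sqrt (2 * Q) * Nat.sqrt (2 * Q) ≤ 2 * Q := Nat.sqrt_le (2 * Q)
    have h6 : (Nat.sqrt (2 * Q) : ℝ) * (Nat.sqrt (2 * Q) : ℝ) ≤ 2 * Q := by exact_mod_cast h5
    have h7 : (Nat.sqrt (2 * Q) : ℝ) ^ 2 ≤ (x ^ 2) ^ 2 := by
      rw [sq, ← pow_mul]
      norm_num
      rw [hx4]
      exact h6
    exact le_of_pow_le_pow_left₀ (by norm_num) (by positivity) h7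
  have hπk : (π : ℝ) + 1 ≤ (k : ℝ) ^ 3 := by exact_mod_cast hcon
  have hk3 : (k : ℝ) ^ 3 ≤ x ^ 3 / 2 ^ 21 := by
    have : (128 * (k : ℝ)) ^ 3 ≤ x ^ 3 := pow_le_pow_left₀ (by positivity) hkx 3
    rw [mul_pow] at this
    rw [le_div_iff₀ (by positivity)]
    calc (k : ℝ) ^ 3 * 2 ^ 21 = 128 ^ 3 * (k : ℝ) ^ 3 := by ring
      _ ≤ x ^ 3 := this
  have hlog4 : (1.38 : ℝ) ≤ Real.log 4 := by
    have h5 : Real.log 4 = 2 * Real.log 2 := by
      rw [show (4 : ℝ) = 2 ^ 2 by norm_num, Real.log_pow]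
      norm_num
    have := Real.log_two_gt_d9
    rw [h5]
    linarith
  have hA : ((Nat.sqrt (2 * Q) : ℝ) + π + 1) * Real.log (2 * Q) ≤
      (x ^ 2 + x ^ 3 / 2 ^ 21) * (4 * x) := by
    apply mul_le_mul _ hlog hlogpos (by positivity)
    linarith
  have hB : (Q : ℝ) / 3 * Real.log 4 < (x ^ 2 + x ^ 3 / 2 ^ 21) * (4 * x) := by
    have : (Q : ℝ) * Real.log 4 - (2 * Q / 3) * Real.log 4 = Q / 3 * Real.log 4 := by ring
    linarith
  have hQx : (Q : ℝ) = x ^ 4 / 2 := by rw [hx4]; ring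
  have hC : x ^ 4 / 6 * 1.38 ≤ (Q : ℝ) / 3 * Real.log 4 := by
    rw [hQx]
    have h5 : 0 ≤ x ^ 4 := by positivity
    nlinarith
  have hD : (x ^ 2 + x ^ 3 / 2 ^ 21) * (4 * x) ≤ x ^ 4 / 16 := by
    have h5 : 128 * x ^ 3 ≤ x ^ 4 := by
      have : 0 < x ^ 3 := by positivity
      calc 128 * x ^ 3 ≤ x * x ^ 3 := by gcongr
        _ = x ^ 4 := by ring
    have h6 : 0 ≤ x ^ 4 := by positivity
    have h7 : (x ^ 2 + x ^ 3 / 2 ^ 21) * (4 * x) = 4 * x ^ 3 + x ^ 4 / 2 ^ 19 := by ring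
    rw [h7]
    nlinarith
  have hE : 0 < x ^ 4 := by positivity
  nlinarith

end Pool.Agent.H76.VK
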