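import Mathlib
import Pool.Agent.H76.VK.MxDef

/-!
# Split: one residue class is enough (Hoelder's inequality)

Characters of `(ℤ/Q)^k`: `e(α, v) = exp(2π i ∑_j α_j v_j / Q)`, `α : Fin k → Fin Q`;
`∑_α e(α, v) = Q^k` if `Q ∣ v_j` for all `j`, else 0 (product of geometric sums).
Choose `Q` larger than all `|pw x j + pw z j - pw y j - pw w j|` that occur.  Then
`mx k D A = Q^(-k) ∑_α |F(α)|^2 |G_A(α)|^2`, `F(α) = ∑_{x ∈ D} e(α, pw x)`, and for `A = vset s P`: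
`G_A = f^s`, `f(α) = ∑_{1 ≤ n ≤ P} e(α, (n, n^2, ..., n^k)) = ∑_{u < p} f_u(α)` (residue classes),
`|f|^(2s) ≤ p^(2s-1) ∑_u |f_u|^(2s)` (power mean), while `f_u^s = G_{cls u}`.  So
`mx k D (vset s P) ≤ p^(2s-1) ∑_{u<p} mx k D (cls u) ≤ p^(2s) max_u`.  About 170 lines.
-/

set_option autoImplicit false

namespace Pool.Agent.H76.VK

private lemma sp_energy {G T : Type*} [AddCommGroup G] [Fintype G] [DecidableEq G]
    (S : Finset T) (c : T → G) :
    ∑ ψ : AddChar G ℂ, ‖∑ t ∈ S, ψ (c t)‖ ^ 2 =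
      (Fintype.card G : ℝ) * ((S ×ˢ S).filter fun q => c q.1 = c q.2).card := by
  have h : ((∑ ψ : AddChar G ℂ, ‖∑ t ∈ S, ψ (c t)‖ ^ 2 : ℝ) : ℂ) =
      (((Fintype.card G : ℝ) * ((S ×ˢ S).filter fun q => c q.1 = c q.2).card : ℝ) : ℂ) := by
    push_cast
    have h1 : ∀ ψ : AddChar G ℂ, ((‖∑ t ∈ S, ψ (c t)‖ : ℂ)) ^ 2 =
        ∑ q ∈ S ×ˢ S, ψ (c q.1 - c q.2) := by
      intro ψ
      rw [← Complex.mul_conj', map_sum, Finset.sum_mul_sum, ← Finset.sum_product']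
      refine Finset.sum_congr rfl fun q _ => ?_
      rw [sub_eq_add_neg, AddChar.map_add_eq_mul, AddChar.map_neg_eq_conj]
    rw [Finset.sum_congr rfl fun ψ _ => h1 ψ, Finset.sum_comm]
    simp only [AddChar.sum_apply_eq_ite, sub_eq_zero]
    rw [← Finset.sum_filter, Finset.sum_const, nsmul_eq_mul, mul_comm]
  exact_mod_cast h

private def spc (k Q : ℕ) (v : Fin k → ℤ) : Fin k → ZMod Q := fun j => (v j : ZMod Q)

private lemma spc_add (k Q : ℕ) (v w : Fin k → ℤ) : spc k Q (v + w) = spc k Q v + spc k Q w := by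
  funext j
  simp [spc]

private lemma spc_sum (k Q : ℕ) {ι : Type*} (S : Finset ι) (v : ι → Fin k → ℤ) :
    spc k Q (∑ i ∈ S, v i) = ∑ i ∈ S, spc k Q (v i) := by
  funext j
  simp [spc, Finset.sum_apply]

/-- a modulus which separates finitely many vectors -/
private lemma sp_modulus (k : ℕ) (T : Finset (Fin k → ℤ)) :
    ∃ Q : ℕ, 0 < Q ∧ ∀ v ∈ T, ∀ w ∈ T, spc k Q v = spc k Q w → v = w := by
  classical
  refine ⟨1 + ∑ v ∈ T, ∑ w ∈ T, ∑ j, (v j - w j).natAbs, by omega, ?_⟩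
  intro v hv w hw h
  funext j
  have h1 := congrFun h j
  simp only [spc] at h1
  rw [ZMod.intCast_eq_intCast_iff_dvd_sub] at h1
  have h2 : (v j - w j).natAbs ≤ ∑ v ∈ T, ∑ w ∈ T, ∑ j, (v j - w j).natAbs := by
    calc (v j - w j).natAbs ≤ ∑ j, (v j - w j).natAbs :=
          Finset.single_le_sum (f := fun j => (v j - w j).natAbs) (fun _ _ => Nat.zero_le _)
            (Finset.mem_univ j)
      _ ≤ ∑ w ∈ T, ∑ j, (v j - w j).natAbs :=
          Finset.single_le_sum (f := fun w : Fin k → ℤ => ∑ j, (v j - w j).natAbs)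
            (fun _ _ => Nat.zero_le _) hw
      _ ≤ _ := Finset.single_le_sum
            (f := fun v : Fin k → ℤ => ∑ w ∈ T, ∑ j, (v j - w j).natAbs)
            (fun _ _ => Nat.zero_le _) hv
  have h3 := Int.eq_zero_of_abs_lt_dvd h1 (by
    have h4 : (w j - v j).natAbs = (v j - w j).natAbs := by omega
    rw [Int.abs_eq_natAbs, h4]
    exact_mod_cast Nat.lt_of_le_of_lt h2 (by omega))
  omega

/-- the power sum vector of one integer -/
private def sp1 (k : ℕ) (n : ℤ) : Fin k → ℤ := fun j => n ^ ((j : ℕ) + 1)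

private lemma pw_eq_sum (k : ℕ) {s : ℕ} (x : Fin s → ℤ) : pw k x = ∑ i, sp1 k (x i) := by
  funext j
  simp [pw, sp1, Finset.sum_apply]

private lemma sp_map_sum {G ι : Type*} [AddCommGroup G] (ψ : AddChar G ℂ) (S : Finset ι)
    (g : ι → G) : ψ (∑ i ∈ S, g i) = ∏ i ∈ S, ψ (g i) := by
  classical
  induction S using Finset.induction_on with
  | empty => simp
  | insert a S ha ih => rw [Finset.sum_insert ha, Finset.prod_insert ha, AddChar.map_add_eq_mul, ih]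

/-- exponential sums over boxes are powers -/
private lemma sp_box {k Q s : ℕ} (ψ : AddChar (Fin k → ZMod Q) ℂ) (I : Finset ℤ) :
    ∑ z ∈ Fintype.piFinset (fun _ : Fin s => I), ψ (spc k Q (pw k z)) =
      (∑ n ∈ I, ψ (spc k Q (sp1 k n))) ^ s := by
  classical
  have h := Finset.prod_univ_sum (fun _ : Fin s => I) (fun _ n => ψ (spc k Q (sp1 k n)))
  rw [Finset.prod_const, Finset.card_univ, Fintype.card_fin] at h
  rw [h]
  refine Finset.sum_congr rfl fun z _ => ?_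
  rw [pw_eq_sum, spc_sum]
  exact sp_map_sum ψ Finset.univ _

/-- the mixed energy as a mean value -/
private lemma sp_mx (k : ℕ) {m s : ℕ} (D : Finset (Fin m → ℤ)) (I : Finset ℤ) (Q : ℕ) [NeZero Q]
    (T : Finset (Fin k → ℤ)) (hT : ∀ v ∈ T, ∀ w ∈ T, spc k Q v = spc k Q w → v = w)
    (hm : ∀ x ∈ D, ∀ z ∈ Fintype.piFinset (fun _ : Fin s => I), pw k x + pw k z ∈ T) :
    (Fintype.card (Fin k → ZMod Q) : ℝ) * mx k D (Fintype.piFinset (fun _ : Fin s => I)) =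
      ∑ ψ : AddChar (Fin k → ZMod Q) ℂ, ‖∑ x ∈ D, ψ (spc k Q (pw k x))‖ ^ 2 *
        ‖∑ n ∈ I, ψ (spc k Q (sp1 k n))‖ ^ (2 * s) := by
  classical
  set A := Fintype.piFinset (fun _ : Fin s => I) with hA
  have h1 := sp_energy (D ×ˢ A) (fun t : (Fin m → ℤ) × (Fin s → ℤ) =>
    spc k Q (pw k t.1 + pw k t.2))
  have h2 : ((D ×ˢ A) ×ˢ (D ×ˢ A)).filter
      (fun q : ((Fin m → ℤ) × (Fin s → ℤ)) × ((Fin m → ℤ) × (Fin s → ℤ)) =>
        spc k Q (pw k q.1.1 + pw k q.1.2) = spc k Q (pw k q.2.1 + pw k q.2.2)) =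
      (((D ×ˢ D) ×ˢ (A ×ˢ A)).filter fun q => pw k q.1.1 + pw k q.2.1 =
        pw k q.1.2 + pw k q.2.2).image (fun q => ((q.1.1, q.2.1), (q.1.2, q.2.2))) := by
    ext ⟨⟨x, z⟩, ⟨y, w⟩⟩
    simp only [Finset.mem_filter, Finset.mem_product, Finset.mem_image, Prod.mk.injEq,
      Prod.exists]
    constructor
    · rintro ⟨⟨⟨hx, hz⟩, hy, hw⟩, h⟩
      exact ⟨x, y, z, w, ⟨⟨⟨hx, hy⟩, hz, hw⟩, hT _ (hm x hx z hz) _ (hm y hy w hw) h⟩,
        ⟨rfl, rfl⟩, rfl, rfl⟩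
    · rintro ⟨x', y', z', w', ⟨⟨⟨hx, hy⟩, hz, hw⟩, h⟩, ⟨rfl, rfl⟩, rfl, rfl⟩
      exact ⟨⟨⟨hx, hz⟩, hy, hw⟩, by rw [h]⟩
  have h3 : (((D ×ˢ A) ×ˢ (D ×ˢ A)).filter
      (fun q : ((Fin m → ℤ) × (Fin s → ℤ)) × ((Fin m → ℤ) × (Fin s → ℤ)) =>
        spc k Q (pw k q.1.1 + pw k q.1.2) = spc k Q (pw k q.2.1 + pw k q.2.2))).card =
      mx k D A := by
    rw [h2, Finset.card_image_of_injective, mx]
    rintro ⟨⟨a, b⟩, ⟨c, d⟩⟩ ⟨⟨a', b'⟩, ⟨c', d'⟩⟩ h
    simp only [Prod.mk.injEq] at h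
    obtain ⟨⟨rfl, rfl⟩, rfl, rfl⟩ := h
    rfl
  rw [h3] at h1
  rw [← h1]
  refine Finset.sum_congr rfl fun ψ _ => ?_
  have h4 : ∑ t ∈ D ×ˢ A, ψ (spc k Q (pw k t.1 + pw k t.2)) =
      (∑ x ∈ D, ψ (spc k Q (pw k x))) * (∑ n ∈ I, ψ (spc k Q (sp1 k n))) ^ s := by
    rw [← sp_box ψ I, Finset.sum_mul_sum, ← Finset.sum_product']
    refine Finset.sum_congr rfl fun t _ => ?_
    rw [spc_add, AddChar.map_add_eq_mul]
  rw [h4, norm_mul, norm_pow, mul_pow, ← pow_mul, mul_comm s 2]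

theorem split {k m s P p : ℕ} (hp : 0 < p) (hs : 1 ≤ s) (D : Finset (Fin m → ℤ)) :
    ∃ u : ℕ, u < p ∧ mx k D (vset s P) ≤ p ^ (2 * s) * mx k D (cls s P p u) := by
  classical
  obtain ⟨u, hu, hmax⟩ := Finset.exists_max_image (Finset.range p)
    (fun u : ℕ => mx k D (cls s P p u)) ⟨0, Finset.mem_range.2 hp⟩
  refine ⟨u, Finset.mem_range.1 hu, ?_⟩
  set T : Finset (Fin k → ℤ) := (D ×ˢ vset s P).image fun q => pw k q.1 + pw k q.2 with hTdef
  obtain ⟨Q, hQ, hT⟩ := sp_modulus k T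
  have : NeZero Q := ⟨hQ.ne'⟩
  set Iu : ℕ → Finset ℤ := fun u => (Finset.Icc 1 (P : ℤ)).filter fun n => (p : ℤ) ∣ n - u
    with hIu
  have hcls : ∀ u : ℕ, cls s P p u = Fintype.piFinset fun _ : Fin s => Iu u := by
    intro u
    ext z
    simp only [cls, vset, hIu, Finset.mem_filter, Fintype.mem_piFinset]
    constructor
    · rintro ⟨h1, h2⟩ i
      exact ⟨h1 i, h2 i⟩
    · intro h
      exact ⟨fun i => (h i).1, fun i => (h i).2⟩
  have hfull := sp_mx k (s := s) D (Finset.Icc 1 (P : ℤ)) Q T hT (by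
    intro x hx z hz
    rw [hTdef, Finset.mem_image]
    exact ⟨(x, z), Finset.mem_product.2 ⟨hx, hz⟩, rfl⟩)
  have hpart : ∀ u : ℕ, (Fintype.card (Fin k → ZMod Q) : ℝ) * mx k D (cls s P p u) =
      ∑ ψ : AddChar (Fin k → ZMod Q) ℂ, ‖∑ x ∈ D, ψ (spc k Q (pw k x))‖ ^ 2 *
        ‖∑ n ∈ Iu u, ψ (spc k Q (sp1 k n))‖ ^ (2 * s) := by
    intro u
    rw [hcls u]
    refine sp_mx k (s := s) D (Iu u) Q T hT ?_
    intro x hx z hz
    rw [hTdef, Finset.mem_image]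
    refine ⟨(x, z), Finset.mem_product.2 ⟨hx, ?_⟩, rfl⟩
    rw [← hcls u, cls, Finset.mem_filter] at hz
    exact hz.1
  have hsplit : ∀ ψ : AddChar (Fin k → ZMod Q) ℂ,
      ∑ n ∈ Finset.Icc 1 (P : ℤ), ψ (spc k Q (sp1 k n)) =
        ∑ u ∈ Finset.range p, ∑ n ∈ Iu u, ψ (spc k Q (sp1 k n)) := by
    intro ψ
    have hmap : ∀ n ∈ Finset.Icc 1 (P : ℤ), (n % (p : ℤ)).toNat ∈ Finset.range p := by
      intro n _
      have hp' : (0 : ℤ) < p := by exact_mod_cast hp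
      have h1 := Int.emod_nonneg n hp'.ne'
      have h2 := Int.emod_lt_of_pos n hp'
      rw [Finset.mem_range]
      omega
    rw [← Finset.sum_fiberwise_of_maps_to hmap]
    refine Finset.sum_congr rfl fun v hv => ?_
    refine Finset.sum_congr ?_ fun _ _ => rfl
    rw [hIu]
    ext n
    simp only [Finset.mem_filter]
    refine and_congr_right fun _ => ?_
    have hp' : (0 : ℤ) < p := by exact_mod_cast hp
    have h1 := Int.emod_nonneg n hp'.ne'
    have hv' := Finset.mem_range.1 hv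
    constructor
    · intro h
      have h2 : n % (p : ℤ) = v := by omega
      rw [← h2]
      exact Int.dvd_self_sub_emod
    · intro h
      have h2 : n % (p : ℤ) = (v : ℤ) % (p : ℤ) := Int.ModEq.symm (Int.modEq_iff_dvd.2 h)
      rw [h2, Int.emod_eq_of_lt (by positivity) (by exact_mod_cast hv')]
      simp
  have hmean : ∀ ψ : AddChar (Fin k → ZMod Q) ℂ,
      ‖∑ n ∈ Finset.Icc 1 (P : ℤ), ψ (spc k Q (sp1 k n))‖ ^ (2 * s) ≤
        (p : ℝ) ^ (2 * s - 1) * ∑ u ∈ Finset.range p,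
          ‖∑ n ∈ Iu u, ψ (spc k Q (sp1 k n))‖ ^ (2 * s) := by
    intro ψ
    rw [hsplit ψ]
    have h1 := pow_sum_div_card_le_sum_pow (s := Finset.range p)
      (f := fun u => ‖∑ n ∈ Iu u, ψ (spc k Q (sp1 k n))‖) (fun _ _ => norm_nonneg _) (2 * s - 1)
    have h2 : 2 * s - 1 + 1 = 2 * s := by omega
    rw [h2, Finset.card_range, div_le_iff₀ (by positivity)] at h1
    calc _ ≤ (∑ u ∈ Finset.range p, ‖∑ n ∈ Iu u, ψ (spc k Q (sp1 k n))‖) ^ (2 * s) :=
          pow_le_pow_left₀ (norm_nonneg _) (norm_sum_le _ _) _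
      _ ≤ _ := h1
      _ = _ := mul_comm _ _
  have hcard : (0 : ℝ) < (Fintype.card (Fin k → ZMod Q) : ℝ) := by
    exact_mod_cast Fintype.card_pos
  have key : (Fintype.card (Fin k → ZMod Q) : ℝ) * mx k D (vset s P) ≤
      (Fintype.card (Fin k → ZMod Q) : ℝ) * ((p : ℝ) ^ (2 * s) * mx k D (cls s P p u)) := by
    have e1 : vset s P = Fintype.piFinset fun _ : Fin s => Finset.Icc 1 (P : ℤ) := rfl
    rw [e1, hfull]
    calc _ ≤ ∑ ψ : AddChar (Fin k → ZMod Q) ℂ, ‖∑ x ∈ D, ψ (spc k Q (pw k x))‖ ^ 2 *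
          ((p : ℝ) ^ (2 * s - 1) * ∑ u ∈ Finset.range p,
          ‖∑ n ∈ Iu u, ψ (spc k Q (sp1 k n))‖ ^ (2 * s)) :=
          Finset.sum_le_sum fun ψ _ => mul_le_mul_of_nonneg_left (hmean ψ) (by positivity)
      _ = (p : ℝ) ^ (2 * s - 1) * ∑ u ∈ Finset.range p,
          ((Fintype.card (Fin k → ZMod Q) : ℝ) * mx k D (cls s P p u)) := by
          rw [Finset.sum_congr rfl fun u _ => hpart u, Finset.sum_comm, Finset.mul_sum]
          refine Finset.sum_congr rfl fun ψ _ => ?_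
          rw [← Finset.mul_sum]
          ring
      _ ≤ (p : ℝ) ^ (2 * s - 1) * ∑ _v ∈ Finset.range p,
          ((Fintype.card (Fin k → ZMod Q) : ℝ) * mx k D (cls s P p u)) := by
          refine mul_le_mul_of_nonneg_left (Finset.sum_le_sum fun v hv => ?_) (by positivity)
          refine mul_le_mul_of_nonneg_left ?_ hcard.le
          exact_mod_cast hmax v hv
      _ = _ := by
          rw [Finset.sum_const, Finset.card_range, nsmul_eq_mul]
          have h3 : (p : ℝ) ^ (2 * s) = (p : ℝ) ^ (2 * s - 1) * p := by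
            rw [← pow_succ]
            congr 1
            omega
          rw [h3]
          ring
  have h5 := le_of_mul_le_mul_left key hcard
  exact_mod_cast h5

end Pool.Agent.H76.VK
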