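import Mathlib
import Pool.Agent.H76.VK.Split
import Pool.Agent.H76.VK.CongB
import Pool.Agent.H76.VK.Linnik
import Pool.Agent.H76.VK.ManyP
import Pool.Agent.H76.VK.Cover

/-!
# Recur: the recursion for `J k s P`

Take `k^3` of the primes in `(Q, 2Q]` (`many_primes`; `Q ≥ C k^4 > k`), `cover`, then `split`,
`congB`, `linnik` (`P ≤ Q^k ≤ p^k`, `k < p`).  About 60 lines.
-/

set_option autoImplicit false

namespace Pool.Agent.H76.VK

theorem recur : ∃ C : ℕ, 1 ≤ C ∧ ∀ k s P Q : ℕ, 2 ≤ k → 1 ≤ s → 1 ≤ P → C * k ^ 4 ≤ Q →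
    P ≤ Q ^ k → ∃ p : ℕ, Q < p ∧ p ≤ 2 * Q ∧
      J k (k + s) P ≤ (1 + k ^ 3 * (k + s) ^ k) ^ 2 *
        max ((P ^ (k - 1) * k ^ (k + s)) ^ 2)
          (p ^ (2 * s) * (P ^ k * (k.factorial * p ^ (k * (k - 1) / 2)) *
            J k s (P / p + 1))) := by
  classical
  obtain ⟨C, hC, hmany⟩ := many_primes
  refine ⟨C, hC, ?_⟩
  intro k s P Q hk hs hP hQ hPQ
  obtain ⟨Ps, hsub, hcard⟩ := Finset.exists_subset_card_eq (hmany k Q (by omega) hQ)
  have hPs : ∀ p ∈ Ps, p.Prime ∧ Q < p := by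
    intro p hp
    have h1 := hsub hp
    rw [Finset.mem_filter, Finset.mem_Ioc] at h1
    exact ⟨h1.2, h1.1.1⟩
  obtain ⟨p, hp, hJ⟩ := cover (k := k) (s := s) (P := P) (Q := Q) (by omega) hP Ps hPs
    hcard.ge hPQ
  have hp1 := hsub hp
  rw [Finset.mem_filter, Finset.mem_Ioc] at hp1
  obtain ⟨⟨hQp, hp2⟩, hpr⟩ := hp1
  have hkQ : k ≤ Q := by
    have h4 : k ≤ k ^ 4 := Nat.le_self_pow (by norm_num) k
    have h5 : k ^ 4 ≤ C * k ^ 4 := Nat.le_mul_of_pos_left _ (by omega)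
    omega
  have hPp : P ≤ p ^ k := hPQ.trans (Nat.pow_le_pow_left hQp.le k)
  obtain ⟨u, -, hu⟩ := split (k := k) (s := s) (P := P) (p := p) hpr.pos hs (dst k P p)
  have h6 := congB (k := k) (s := s) (P := P) (p := p) hpr.pos (u : ℤ) (dst k P p)
  have h7 := linnik (k := k) (P := P) hpr (by omega) (by omega) hPp (u : ℤ)
  have h8 : mx k (dst k P p) (vset s P) ≤
      p ^ (2 * s) * (P ^ k * (k.factorial * p ^ (k * (k - 1) / 2)) * J k s (P / p + 1)) := by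
    refine hu.trans (Nat.mul_le_mul_left _ ?_)
    exact h6.trans (Nat.mul_le_mul_right _ h7)
  refine ⟨p, hQp, hp2, ?_⟩
  rw [hcard] at hJ
  exact hJ.trans (Nat.mul_le_mul_left _ (max_le_max le_rfl h8))

end Pool.Agent.H76.VK
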