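import Mathlib
import Pool.Agent.H76.VK.Recur

/-!
# Vmvt: Vinogradov's mean value theorem

Put `E r = 2 k r - (k(k+1)/2) (1 - (1-1/k)^r)`.  Claim by induction on `r`, `1 ≤ r ≤ 4k`:
`J k (k r) P ≤ exp(A (k^3 log(k+1) + r k^2)) P^(E r)` for all `P ≥ 1`, `A` absolute.
`r = 1`: `J_base`, `k! P^k`, `k ≤ E 1 = 2k - (k+1)/2`.
Step: `P < P0 := (2 C k^4)^k`: trivial bound `J ≤ P^(2k(r+1))` and
`P^(k(k+1)/2) ≤ P0^(k(k+1)/2) ≤ exp(A k^3 log(k+1))` (`E ≥ 2k(r+1) - k(k+1)/2`).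
`P ≥ P0`: `Q = ⌈P^(1/k)⌉ ≤ 2 P^(1/k)`, `Q ≥ C k^4`, `p ≤ 2Q ≤ 4 P^(1/k)`, `p > P^(1/k)`,
`P/p + 1 ≤ 2 P^(1-1/k)`.  First alternative: `(P^(k-1) k^(k+s))^2`, `2k - 2 ≤ E (r+1)` because
`1 - (1-1/k)^m ≤ m/k` gives `E m ≥ m (3k-1)/2 ≥ 2k - 2` for `m ≥ 2`.
Second: `p^(2s + k(k-1)/2) ≤ 4^(2s + k(k-1)/2) P^((2s + k(k-1)/2)/k)`, `s = k r`,
`J k s (P/p+1) ≤ C_r (2 P^(1-1/k))^(E r) ≤ C_r 2^(2s) P^((1-1/k) E r)`, and the exponent of `P` is
`(2s + k(k-1)/2)/k + k + (1-1/k) E r = E (r+1)`.  The constants: `(1 + k^3 (k+s)^k)^2`, `k!`,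
`4^(2s + k(k-1)/2)`, `2^(2s)`, `k^(2(k+s))` are all at most `exp(A k^2 ...)`: `s ≤ 4k^2`,
`2k log(k+s) + 2s log 4 + ... ≤ A k^2`.  (`k^(2(k+s)) ≤ exp(2 (4k^2+k) log k) ≤ exp(A k^3 log(k+1))`:
it is a lower bound for the constant, not a factor.)
Finally `r = 4k`: `A (k^3 log(k+1) + 4 k^3) ≤ A' k^4`.  About 250 lines.
-/

set_option autoImplicit false

namespace Pool.Agent.H76.VK

private noncomputable def vmE (k r : ℕ) : ℝ :=
  2 * (k : ℝ) * r - k * (k + 1) / 2 * (1 - (1 - 1 / (k : ℝ)) ^ r)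

private theorem vm_theta {k : ℕ} (hk : 2 ≤ k) : 0 ≤ 1 - 1 / (k : ℝ) ∧ 1 - 1 / (k : ℝ) ≤ 1 := by
  have h1 : (2 : ℝ) ≤ k := by exact_mod_cast hk
  have h2 : 1 / (k : ℝ) ≤ 1 := by
    rw [div_le_one (by linarith)]
    linarith
  have h3 : 0 ≤ 1 / (k : ℝ) := by positivity
  constructor <;> linarith

private theorem vm_E_ge {k : ℕ} (hk : 2 ≤ k) (r : ℕ) : (r : ℝ) * (3 * k - 1) / 2 ≤ vmE k r := by
  have h1 : (2 : ℝ) ≤ k := by exact_mod_cast hk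
  have h0 := vm_theta hk
  have h2 : 1 + (r : ℝ) * (-(1 / (k : ℝ))) ≤ (1 + -(1 / (k : ℝ))) ^ r :=
    one_add_mul_le_pow (by linarith) r
  have h3 : 1 - (1 - 1 / (k : ℝ)) ^ r ≤ (r : ℝ) / k := by
    have h4 : (1 + -(1 / (k : ℝ))) = 1 - 1 / (k : ℝ) := by ring
    rw [h4] at h2
    have h5 : (r : ℝ) * (-(1 / (k : ℝ))) = -((r : ℝ) / k) := by ring
    linarith
  have h6 : (k : ℝ) * (k + 1) / 2 * (1 - (1 - 1 / (k : ℝ)) ^ r) ≤
      (k : ℝ) * (k + 1) / 2 * ((r : ℝ) / k) :=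
    mul_le_mul_of_nonneg_left h3 (by positivity)
  have h7 : (k : ℝ) * (k + 1) / 2 * ((r : ℝ) / k) = (k + 1) / 2 * r := by
    field_simp
  unfold vmE
  rw [h7] at h6
  nlinarith

private theorem vm_E_le {k : ℕ} (hk : 2 ≤ k) (r : ℕ) : vmE k r ≤ 2 * k * r := by
  have h0 := vm_theta hk
  have h1 : (1 - 1 / (k : ℝ)) ^ r ≤ 1 := pow_le_one₀ h0.1 h0.2
  unfold vmE
  have h2 : 0 ≤ (k : ℝ) * (k + 1) / 2 * (1 - (1 - 1 / (k : ℝ)) ^ r) :=
    mul_nonneg (by positivity) (by linarith)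
  linarith

private theorem vm_E_low {k : ℕ} (hk : 2 ≤ k) (r : ℕ) :
    2 * (k : ℝ) * r - k * (k + 1) / 2 ≤ vmE k r := by
  have h0 := vm_theta hk
  have h1 : 0 ≤ (1 - 1 / (k : ℝ)) ^ r := pow_nonneg h0.1 _
  unfold vmE
  have h2 : (k : ℝ) * (k + 1) / 2 * (1 - (1 - 1 / (k : ℝ)) ^ r) ≤ (k : ℝ) * (k + 1) / 2 * 1 :=
    mul_le_mul_of_nonneg_left (by linarith) (by positivity)
  linarith

private theorem vm_E_succ {k : ℕ} (hk : 2 ≤ k) (r : ℕ) :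
    (2 * ((k : ℝ) * r) + k * (k - 1) / 2) / k + k + (1 - 1 / (k : ℝ)) * vmE k r =
      vmE k (r + 1) := by
  have h1 : (k : ℝ) ≠ 0 := by
    have : (2 : ℝ) ≤ k := by exact_mod_cast hk
    linarith
  unfold vmE
  rw [pow_succ]
  push_cast
  field_simp
  ring

private theorem vm_triv (k s P : ℕ) : J k s P ≤ P ^ (2 * s) := by
  have h1 := en_le_sq k (vset s P)
  have h2 : (vset s P).card = P ^ s := by
    unfold vset
    rw [Fintype.card_piFinset]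
    simp
  rw [h2, ← pow_mul, mul_comm s 2] at h1
  exact h1

private theorem vm_le_exp (x : ℝ) : x ≤ Real.exp x := by
  have := Real.add_one_le_exp x
  linarith

private theorem vm_pow_le (k n : ℕ) : (k : ℝ) ^ n ≤ Real.exp ((n : ℝ) * k) := by
  rw [Real.exp_nat_mul]
  exact pow_le_pow_left₀ (by positivity) (vm_le_exp _) _

private theorem vm_const {k s : ℕ} (hk : 2 ≤ k) (hs : k + s ≤ 4 * k ^ 2) :
    (1 + (k : ℝ) ^ 3 * ((k : ℝ) + s) ^ k) ^ 2 ≤ Real.exp (6 * (k : ℝ) ^ 3) := by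
  have hk1 : (2 : ℝ) ≤ k := by exact_mod_cast hk
  have h1 : ((k : ℝ) + s) ≤ (2 * (k : ℝ)) ^ 2 := by
    have : ((k + s : ℕ) : ℝ) ≤ ((4 * k ^ 2 : ℕ) : ℝ) := by exact_mod_cast hs
    push_cast at this
    linarith
  have h2 : (2 * (k : ℝ)) ^ 2 ≤ Real.exp (4 * k) := by
    have h3 : (2 * (k : ℝ)) ^ 2 ≤ Real.exp (2 * k) ^ 2 :=
      pow_le_pow_left₀ (by positivity) (vm_le_exp _) _
    rw [← Real.exp_nat_mul] at h3
    have h4 : ((2 : ℕ) : ℝ) * (2 * k) = 4 * k := by push_cast; ring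
    rwa [h4] at h3
  have h3 : ((k : ℝ) + s) ^ k ≤ Real.exp (4 * (k : ℝ) ^ 2) := by
    calc ((k : ℝ) + s) ^ k ≤ Real.exp (4 * k) ^ k :=
          pow_le_pow_left₀ (by positivity) (h1.trans h2) _
      _ = Real.exp (4 * (k : ℝ) ^ 2) := by
          rw [← Real.exp_nat_mul]
          congr 1
          ring
  have h4 : (k : ℝ) ^ 3 ≤ Real.exp (3 * k) := by
    have := vm_pow_le k 3
    push_cast at this
    exact this
  have h5 : (k : ℝ) ^ 3 * ((k : ℝ) + s) ^ k ≤ Real.exp (3 * k + 4 * (k : ℝ) ^ 2) := by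
    rw [Real.exp_add]
    exact mul_le_mul h4 h3 (by positivity) (Real.exp_pos _).le
  have h6 : 1 + (k : ℝ) ^ 3 * ((k : ℝ) + s) ^ k ≤ Real.exp (1 + (3 * k + 4 * (k : ℝ) ^ 2)) := by
    have h7 : (1 : ℝ) ≤ Real.exp (3 * k + 4 * (k : ℝ) ^ 2) := Real.one_le_exp (by positivity)
    have h8 : (2 : ℝ) ≤ Real.exp 1 := by
      have := Real.add_one_le_exp (1 : ℝ)
      linarith
    rw [Real.exp_add]
    nlinarith
  calc (1 + (k : ℝ) ^ 3 * ((k : ℝ) + s) ^ k) ^ 2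
      ≤ Real.exp (1 + (3 * k + 4 * (k : ℝ) ^ 2)) ^ 2 := pow_le_pow_left₀ (by positivity) h6 _
    _ = Real.exp (2 * (1 + (3 * k + 4 * (k : ℝ) ^ 2))) := by
        rw [← Real.exp_nat_mul]
        norm_num
    _ ≤ Real.exp (6 * (k : ℝ) ^ 3) := by
        apply Real.exp_le_exp.mpr
        have h9 : (k : ℝ) ^ 3 = k * k ^ 2 := by ring
        have h10 : 2 * (k : ℝ) ^ 2 ≤ k ^ 3 := by
          rw [h9]
          exact mul_le_mul_of_nonneg_right hk1 (by positivity)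
        have h11 : 2 * (k : ℝ) ≤ k ^ 2 := by nlinarith
        nlinarith

private theorem vm_sq_le {k : ℕ} (hk : 2 ≤ k) : 2 * (k : ℝ) ^ 2 ≤ (k : ℝ) ^ 3 := by
  have hk1 : (2 : ℝ) ≤ k := by exact_mod_cast hk
  have h9 : (k : ℝ) ^ 3 = k * k ^ 2 := by ring
  rw [h9]
  exact mul_le_mul_of_nonneg_right hk1 (by positivity)

private theorem vm_small {A : ℝ} {C k r P : ℕ} (hA : (C : ℝ) + 24 ≤ A) (hk : 2 ≤ k)
    (hP : 1 ≤ P) (hPC : P ≤ (C * k ^ 4) ^ k) :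
    (J k (k * r) P : ℝ) ≤ Real.exp (A * ((k : ℝ) ^ 4 + r * (k : ℝ) ^ 3)) * (P : ℝ) ^ vmE k r := by
  have hk1 : (2 : ℝ) ≤ k := by exact_mod_cast hk
  have hP1 : (1 : ℝ) ≤ P := by exact_mod_cast hP
  have hP0 : (0 : ℝ) < P := by linarith
  have hE := vm_E_low hk r
  have h1 : (J k (k * r) P : ℝ) ≤ (P : ℝ) ^ (2 * (k : ℝ) * r) := by
    have h2 : (J k (k * r) P : ℝ) ≤ (P : ℝ) ^ (2 * (k * r)) := by exact_mod_cast vm_triv k (k * r) P
    have h3 : (P : ℝ) ^ (2 * (k : ℝ) * r) = (P : ℝ) ^ (2 * (k * r)) := by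
      rw [← Real.rpow_natCast]
      congr 1
      push_cast
      ring
    rw [h3]
    exact h2
  have h4 : (P : ℝ) ^ (2 * (k : ℝ) * r) ≤
      (P : ℝ) ^ ((k : ℝ) * (k + 1) / 2) * (P : ℝ) ^ vmE k r := by
    rw [← Real.rpow_add hP0]
    exact Real.rpow_le_rpow_of_exponent_le hP1 (by linarith)
  have h5 : (P : ℝ) ≤ Real.exp ((k : ℝ) * (C + 4 * k)) := by
    have h6 : (P : ℝ) ≤ ((C : ℝ) * (k : ℝ) ^ 4) ^ k := by exact_mod_cast hPC
    have h7 : (C : ℝ) * (k : ℝ) ^ 4 ≤ Real.exp (C + 4 * k) := by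
      rw [Real.exp_add]
      have h8 := vm_pow_le k 4
      push_cast at h8
      exact mul_le_mul (vm_le_exp _) h8 (by positivity) (Real.exp_pos _).le
    refine h6.trans ?_
    rw [Real.exp_nat_mul]
    exact pow_le_pow_left₀ (by positivity) h7 _
  have h6 : (P : ℝ) ^ ((k : ℝ) * (k + 1) / 2) ≤
      Real.exp (A * ((k : ℝ) ^ 4 + r * (k : ℝ) ^ 3)) := by
    have h7 : (P : ℝ) ^ ((k : ℝ) * (k + 1) / 2) ≤
        Real.exp ((k : ℝ) * (C + 4 * k)) ^ ((k : ℝ) * (k + 1) / 2) :=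
      Real.rpow_le_rpow hP0.le h5 (by positivity)
    refine h7.trans ?_
    rw [← Real.exp_mul]
    apply Real.exp_le_exp.mpr
    have hC0 : (0 : ℝ) ≤ C := by positivity
    have h8 : (k : ℝ) * (C + 4 * k) * ((k : ℝ) * (k + 1) / 2) ≤ (C + 4) * (k : ℝ) ^ 4 := by
      have h9 : (C : ℝ) + 4 * k ≤ (C + 4) * k := by nlinarith
      have h10 : ((k : ℝ) + 1) / 2 ≤ k := by linarith
      calc (k : ℝ) * (C + 4 * k) * ((k : ℝ) * (k + 1) / 2)
          = (k : ℝ) ^ 2 * ((C + 4 * k) * (((k : ℝ) + 1) / 2)) := by ring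
        _ ≤ (k : ℝ) ^ 2 * (((C + 4) * k) * k) := by
            apply mul_le_mul_of_nonneg_left _ (by positivity)
            exact mul_le_mul h9 h10 (by positivity) (by positivity)
        _ = (C + 4) * (k : ℝ) ^ 4 := by ring
    have h11 : ((C : ℝ) + 4) * (k : ℝ) ^ 4 ≤ A * (k : ℝ) ^ 4 :=
      mul_le_mul_of_nonneg_right (by linarith) (by positivity)
    have h12 : 0 ≤ A * ((r : ℝ) * (k : ℝ) ^ 3) := mul_nonneg (by linarith) (by positivity)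
    nlinarith
  calc (J k (k * r) P : ℝ) ≤ (P : ℝ) ^ (2 * (k : ℝ) * r) := h1
    _ ≤ (P : ℝ) ^ ((k : ℝ) * (k + 1) / 2) * (P : ℝ) ^ vmE k r := h4
    _ ≤ Real.exp (A * ((k : ℝ) ^ 4 + r * (k : ℝ) ^ 3)) * (P : ℝ) ^ vmE k r :=
        mul_le_mul_of_nonneg_right h6 (Real.rpow_nonneg hP0.le _)

private theorem vm_fact {k : ℕ} (hk : 2 ≤ k) : (k.factorial : ℝ) ≤ Real.exp ((k : ℝ) ^ 3) := by
  have h1 : (k.factorial : ℝ) ≤ (k : ℝ) ^ k := by exact_mod_cast Nat.factorial_le_pow k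
  have h2 := vm_pow_le k k
  refine h1.trans (h2.trans (Real.exp_le_exp.mpr ?_))
  have := vm_sq_le hk
  nlinarith [sq_nonneg (k : ℝ)]

private theorem vm_step {A : ℝ} {C : ℕ} (hA : (C : ℝ) + 24 ≤ A)
    (hrec : ∀ k s P Q : ℕ, 2 ≤ k → 1 ≤ s → 1 ≤ P → C * k ^ 4 ≤ Q →
    P ≤ Q ^ k → ∃ p : ℕ, Q < p ∧ p ≤ 2 * Q ∧
      J k (k + s) P ≤ (1 + k ^ 3 * (k + s) ^ k) ^ 2 *
        max ((P ^ (k - 1) * k ^ (k + s)) ^ 2)
          (p ^ (2 * s) * (P ^ k * (k.factorial * p ^ (k * (k - 1) / 2)) *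
            J k s (P / p + 1))))
    {k r : ℕ} (hk : 2 ≤ k) (hr : 1 ≤ r) (hr4 : r + 1 ≤ 4 * k)
    (ih : ∀ P : ℕ, 1 ≤ P → (J k (k * r) P : ℝ) ≤
      Real.exp (A * ((k : ℝ) ^ 4 + r * (k : ℝ) ^ 3)) * (P : ℝ) ^ vmE k r)
    {P : ℕ} (hP : 1 ≤ P) :
    (J k (k * (r + 1)) P : ℝ) ≤
      Real.exp (A * ((k : ℝ) ^ 4 + (r + 1 : ℕ) * (k : ℝ) ^ 3)) * (P : ℝ) ^ vmE k (r + 1) := by
  have hk1 : (2 : ℝ) ≤ k := by exact_mod_cast hk
  have hk0 : (k : ℝ) ≠ 0 := by linarith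
  have hP1 : (1 : ℝ) ≤ P := by exact_mod_cast hP
  have hP0 : (0 : ℝ) < P := by linarith
  have hr1 : (1 : ℝ) ≤ r := by exact_mod_cast hr
  have hC0 : (0 : ℝ) ≤ C := by positivity
  have hA0 : 0 ≤ A := by linarith
  set X : ℝ := (P : ℝ) ^ (1 / (k : ℝ)) with hX
  have hX1 : 1 ≤ X := Real.one_le_rpow hP1 (by positivity)
  have hX0 : 0 < X := by linarith
  have hXk : X ^ k = P := by
    rw [hX, ← Real.rpow_natCast, ← Real.rpow_mul hP0.le, one_div, inv_mul_cancel₀ hk0,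
      Real.rpow_one]
  set Q : ℕ := ⌈X⌉₊ with hQ
  have hXQ : X ≤ Q := Nat.le_ceil X
  have hQX : (Q : ℝ) ≤ 2 * X := by
    have := Nat.ceil_lt_add_one hX0.le
    rw [← hQ] at this
    linarith
  have hPQ : P ≤ Q ^ k := by
    have h1 : (P : ℝ) ≤ (Q : ℝ) ^ k := by
      rw [← hXk]
      exact pow_le_pow_left₀ hX0.le hXQ _
    exact_mod_cast h1
  by_cases hCQ : C * k ^ 4 ≤ Q
  swap
  · exact vm_small hA hk hP (hPQ.trans (Nat.pow_le_pow_left (by omega) _))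
  obtain ⟨p, hp1, hp2, hJ⟩ := hrec k (k * r) P Q hk (by nlinarith) hP hCQ hPQ
  have hkr : k * (r + 1) = k + k * r := by ring
  rw [hkr]
  have hs4 : k + k * r ≤ 4 * k ^ 2 := by
    rw [← hkr]
    nlinarith
  have hs4' : (k : ℝ) + k * r ≤ 4 * (k : ℝ) ^ 2 := by
    have : ((k + k * r : ℕ) : ℝ) ≤ ((4 * k ^ 2 : ℕ) : ℝ) := by exact_mod_cast hs4
    push_cast at this
    exact this
  have hconst := vm_const hk hs4
  push_cast at hconst
  have hJ' : (J k (k + k * r) P : ℝ) ≤ (1 + (k : ℝ) ^ 3 * ((k : ℝ) + k * r) ^ k) ^ 2 *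
        max (((P : ℝ) ^ (k - 1) * (k : ℝ) ^ (k + k * r)) ^ 2)
          ((p : ℝ) ^ (2 * (k * r)) * ((P : ℝ) ^ k *
            ((k.factorial : ℝ) * (p : ℝ) ^ (k * (k - 1) / 2)) * (J k (k * r) (P / p + 1) : ℝ))) := by
    exact_mod_cast hJ
  have hB : Real.exp (A * ((k : ℝ) ^ 4 + (r + 1 : ℕ) * (k : ℝ) ^ 3)) =
      Real.exp (A * (k : ℝ) ^ 3) * Real.exp (A * ((k : ℝ) ^ 4 + r * (k : ℝ) ^ 3)) := by
    rw [← Real.exp_add]
    congr 1
    push_cast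
    ring
  have hk3 := vm_sq_le hk
  have hA20 : Real.exp (20 * (k : ℝ) ^ 3) ≤ Real.exp (A * (k : ℝ) ^ 3) :=
    Real.exp_le_exp.mpr (mul_le_mul_of_nonneg_right (by linarith) (by positivity))
  have hB1 : 1 ≤ Real.exp (A * ((k : ℝ) ^ 4 + r * (k : ℝ) ^ 3)) :=
    Real.one_le_exp (by positivity)
  rcases max_cases (((P : ℝ) ^ (k - 1) * (k : ℝ) ^ (k + k * r)) ^ 2)
          ((p : ℝ) ^ (2 * (k * r)) * ((P : ℝ) ^ k *
            ((k.factorial : ℝ) * (p : ℝ) ^ (k * (k - 1) / 2)) * (J k (k * r) (P / p + 1) : ℝ)))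
    with hm | hm
  · rw [hm.1] at hJ'
    have h1 : ((P : ℝ) ^ (k - 1) * (k : ℝ) ^ (k + k * r)) ^ 2 ≤
        Real.exp (8 * (k : ℝ) ^ 3) * (P : ℝ) ^ vmE k (r + 1) := by
      have h2 : ((P : ℝ) ^ (k - 1)) ^ 2 ≤ (P : ℝ) ^ vmE k (r + 1) := by
        rw [← pow_mul, ← Real.rpow_natCast]
        refine Real.rpow_le_rpow_of_exponent_le hP1 ?_
        have h3 := vm_E_ge hk (r + 1)
        have h4 : (((k - 1) * 2 : ℕ) : ℝ) = 2 * (k : ℝ) - 2 := by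
          rw [Nat.cast_mul, Nat.cast_sub (by omega)]
          push_cast
          ring
        rw [h4]
        push_cast at h3
        nlinarith
      have h5 : ((k : ℝ) ^ (k + k * r)) ^ 2 ≤ Real.exp (8 * (k : ℝ) ^ 3) := by
        rw [← pow_mul]
        refine (vm_pow_le k _).trans (Real.exp_le_exp.mpr ?_)
        push_cast
        nlinarith
      rw [mul_pow, mul_comm]
      exact mul_le_mul h5 h2 (by positivity) (Real.exp_pos _).le
    calc (J k (k + k * r) P : ℝ) ≤ Real.exp (6 * (k : ℝ) ^ 3) *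
          (Real.exp (8 * (k : ℝ) ^ 3) * (P : ℝ) ^ vmE k (r + 1)) :=
          hJ'.trans (mul_le_mul hconst h1 (by positivity) (Real.exp_pos _).le)
      _ = Real.exp (14 * (k : ℝ) ^ 3) * (P : ℝ) ^ vmE k (r + 1) := by
          rw [← mul_assoc, ← Real.exp_add]
          congr 2
          ring
      _ ≤ Real.exp (A * ((k : ℝ) ^ 4 + (r + 1 : ℕ) * (k : ℝ) ^ 3)) * (P : ℝ) ^ vmE k (r + 1) := by
          apply mul_le_mul_of_nonneg_right _ (Real.rpow_nonneg hP0.le _)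
          rw [hB]
          have h6 : Real.exp (14 * (k : ℝ) ^ 3) ≤ Real.exp (20 * (k : ℝ) ^ 3) :=
            Real.exp_le_exp.mpr (mul_le_mul_of_nonneg_right (by norm_num) (by positivity))
          nlinarith [Real.exp_pos (A * (k : ℝ) ^ 3)]
  · rw [hm.1] at hJ'
    have hpX : X ≤ p := by
      have : (Q : ℝ) ≤ p := by exact_mod_cast hp1.le
      linarith
    have hpX4 : (p : ℝ) ≤ 4 * X := by
      have : (p : ℝ) ≤ 2 * Q := by exact_mod_cast hp2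
      linarith
    have hp0 : (0 : ℝ) < p := by linarith
    set Y : ℝ := (P : ℝ) ^ (1 - 1 / (k : ℝ)) with hY
    have hth := vm_theta hk
    have hY1 : 1 ≤ Y := Real.one_le_rpow hP1 hth.1
    have hYX : Y = P / X := by
      rw [hY, Real.rpow_sub hP0, Real.rpow_one]
    have hPp : ((P / p + 1 : ℕ) : ℝ) ≤ 2 * Y := by
      have h1 : ((P / p : ℕ) : ℝ) ≤ (P : ℝ) / p := Nat.cast_div_le
      have h2 : (P : ℝ) / p ≤ P / X := div_le_div_of_nonneg_left hP0.le hX0 hpX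
      push_cast
      linarith
    have hE0 : 0 ≤ vmE k r := by
      have := vm_E_ge hk r
      nlinarith
    have hE2 := vm_E_le hk r
    have a5 : (J k (k * r) (P / p + 1) : ℝ) ≤
        Real.exp (A * ((k : ℝ) ^ 4 + r * (k : ℝ) ^ 3)) *
          (Real.exp (4 * (k : ℝ) ^ 3) * (P : ℝ) ^ ((1 - 1 / (k : ℝ)) * vmE k r)) := by
      refine (ih (P / p + 1) (Nat.le_add_left 1 _)).trans ?_
      apply mul_le_mul_of_nonneg_left _ (Real.exp_pos _).le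
      calc ((P / p + 1 : ℕ) : ℝ) ^ vmE k r ≤ (2 * Y) ^ vmE k r :=
            Real.rpow_le_rpow (by positivity) hPp hE0
        _ = 2 ^ vmE k r * Y ^ vmE k r := Real.mul_rpow (by norm_num) (by linarith)
        _ = 2 ^ vmE k r * (P : ℝ) ^ ((1 - 1 / (k : ℝ)) * vmE k r) := by
            rw [hY, ← Real.rpow_mul hP0.le]
        _ ≤ Real.exp (4 * (k : ℝ) ^ 3) * (P : ℝ) ^ ((1 - 1 / (k : ℝ)) * vmE k r) := by
            apply mul_le_mul_of_nonneg_right _ (Real.rpow_nonneg hP0.le _)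
            have h8 : (2 : ℝ) ≤ Real.exp 1 := by
              have := Real.add_one_le_exp (1 : ℝ)
              linarith
            calc (2 : ℝ) ^ vmE k r ≤ Real.exp 1 ^ vmE k r := Real.rpow_le_rpow (by norm_num) h8 hE0
              _ = Real.exp (vmE k r) := by rw [← Real.exp_mul, one_mul]
              _ ≤ Real.exp (4 * (k : ℝ) ^ 3) := by
                  apply Real.exp_le_exp.mpr
                  nlinarith
    have a2 : (p : ℝ) ^ (2 * (k * r)) * (p : ℝ) ^ (k * (k - 1) / 2) ≤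
        Real.exp (9 * (k : ℝ) ^ 3) * (P : ℝ) ^ ((2 * ((k : ℝ) * r) + k * (k - 1) / 2) / k) := by
      have hm2 : ((k * (k - 1) / 2 : ℕ) : ℝ) ≤ (k : ℝ) * (k - 1) / 2 := by
        have h1 : ((k * (k - 1) / 2 : ℕ) : ℝ) ≤ ((k * (k - 1) : ℕ) : ℝ) / ((2 : ℕ) : ℝ) :=
          Nat.cast_div_le
        rw [Nat.cast_mul, Nat.cast_sub (by omega)] at h1
        push_cast at h1
        exact h1
      rw [← pow_add]
      have h4X : 1 ≤ 4 * X := by linarith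
      have h4 : (4 : ℝ) ≤ Real.exp 2 := by
        have h8 : (2 : ℝ) ≤ Real.exp 1 := by
          have := Real.add_one_le_exp (1 : ℝ)
          linarith
        have h9 : Real.exp 2 = Real.exp 1 * Real.exp 1 := by
          rw [← Real.exp_add]
          norm_num
        rw [h9]
        nlinarith
      set u : ℝ := 2 * ((k : ℝ) * r) + k * (k - 1) / 2 with hu
      have hu0 : 0 ≤ u := by
        have : 0 ≤ (k : ℝ) * (k - 1) / 2 := by nlinarith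
        positivity
      calc (p : ℝ) ^ (2 * (k * r) + k * (k - 1) / 2)
          ≤ (4 * X) ^ (2 * (k * r) + k * (k - 1) / 2) := pow_le_pow_left₀ hp0.le hpX4 _
        _ = (4 * X) ^ (((2 * (k * r) + k * (k - 1) / 2 : ℕ)) : ℝ) := (Real.rpow_natCast _ _).symm
        _ ≤ (4 * X) ^ u := by
            refine Real.rpow_le_rpow_of_exponent_le h4X ?_
            push_cast
            rw [hu]
            linarith [hm2]
        _ = 4 ^ u * X ^ u := Real.mul_rpow (by norm_num) hX0.le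
        _ = 4 ^ u * (P : ℝ) ^ (u / k) := by
            rw [hX, ← Real.rpow_mul hP0.le]
            congr 2
            ring
        _ ≤ Real.exp (9 * (k : ℝ) ^ 3) * (P : ℝ) ^ (u / k) := by
            apply mul_le_mul_of_nonneg_right _ (Real.rpow_nonneg hP0.le _)
            calc (4 : ℝ) ^ u ≤ Real.exp 2 ^ u := Real.rpow_le_rpow (by norm_num) h4 hu0
              _ = Real.exp (2 * u) := by rw [← Real.exp_mul]
              _ ≤ Real.exp (9 * (k : ℝ) ^ 3) := by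
                  apply Real.exp_le_exp.mpr
                  rw [hu]
                  nlinarith
    have a4 := vm_fact hk
    have hpk : (P : ℝ) ^ k = (P : ℝ) ^ (k : ℝ) := (Real.rpow_natCast _ _).symm
    have hreg : (p : ℝ) ^ (2 * (k * r)) * ((P : ℝ) ^ k *
            ((k.factorial : ℝ) * (p : ℝ) ^ (k * (k - 1) / 2)) * (J k (k * r) (P / p + 1) : ℝ)) =
        ((p : ℝ) ^ (2 * (k * r)) * (p : ℝ) ^ (k * (k - 1) / 2)) * ((P : ℝ) ^ k *
          ((k.factorial : ℝ) * (J k (k * r) (P / p + 1) : ℝ))) := by ring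
    rw [hreg] at hJ'
    have b1 : (k.factorial : ℝ) * (J k (k * r) (P / p + 1) : ℝ) ≤
        Real.exp ((k : ℝ) ^ 3) * (Real.exp (A * ((k : ℝ) ^ 4 + r * (k : ℝ) ^ 3)) *
          (Real.exp (4 * (k : ℝ) ^ 3) * (P : ℝ) ^ ((1 - 1 / (k : ℝ)) * vmE k r))) :=
      mul_le_mul a4 a5 (by positivity) (Real.exp_pos _).le
    have b2 : (P : ℝ) ^ k * ((k.factorial : ℝ) * (J k (k * r) (P / p + 1) : ℝ)) ≤
        (P : ℝ) ^ (k : ℝ) * (Real.exp ((k : ℝ) ^ 3) *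
          (Real.exp (A * ((k : ℝ) ^ 4 + r * (k : ℝ) ^ 3)) *
          (Real.exp (4 * (k : ℝ) ^ 3) * (P : ℝ) ^ ((1 - 1 / (k : ℝ)) * vmE k r)))) := by
      rw [hpk]
      exact mul_le_mul_of_nonneg_left b1 (Real.rpow_nonneg hP0.le _)
    have b3 := mul_le_mul a2 b2 (by positivity)
      (mul_nonneg (Real.exp_pos _).le (Real.rpow_nonneg hP0.le _))
    have b4 := mul_le_mul hconst b3 (by positivity) (Real.exp_pos _).le
    refine hJ'.trans (b4.trans ?_)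
    have hfin : Real.exp (6 * (k : ℝ) ^ 3) * (Real.exp (9 * (k : ℝ) ^ 3) *
        (P : ℝ) ^ ((2 * ((k : ℝ) * r) + k * (k - 1) / 2) / k) *
        ((P : ℝ) ^ (k : ℝ) * (Real.exp ((k : ℝ) ^ 3) *
          (Real.exp (A * ((k : ℝ) ^ 4 + r * (k : ℝ) ^ 3)) *
          (Real.exp (4 * (k : ℝ) ^ 3) * (P : ℝ) ^ ((1 - 1 / (k : ℝ)) * vmE k r)))))) =
        Real.exp (20 * (k : ℝ) ^ 3) * Real.exp (A * ((k : ℝ) ^ 4 + r * (k : ℝ) ^ 3)) *
          (P : ℝ) ^ vmE k (r + 1) := by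
      rw [← vm_E_succ hk r, Real.rpow_add hP0, Real.rpow_add hP0]
      have h20 : Real.exp (20 * (k : ℝ) ^ 3) = Real.exp (6 * (k : ℝ) ^ 3) *
          Real.exp (9 * (k : ℝ) ^ 3) * Real.exp ((k : ℝ) ^ 3) * Real.exp (4 * (k : ℝ) ^ 3) := by
        rw [← Real.exp_add, ← Real.exp_add, ← Real.exp_add]
        congr 1
        ring
      rw [h20]
      ring
    rw [hfin, hB]
    apply mul_le_mul_of_nonneg_right _ (Real.rpow_nonneg hP0.le _)
    exact mul_le_mul_of_nonneg_right hA20 (Real.exp_pos _).le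

private theorem vm_main : ∃ A : ℝ, 1 ≤ A ∧ ∀ k r : ℕ, 2 ≤ k → 1 ≤ r → r ≤ 4 * k →
    ∀ P : ℕ, 1 ≤ P → (J k (k * r) P : ℝ) ≤
      Real.exp (A * ((k : ℝ) ^ 4 + r * (k : ℝ) ^ 3)) * (P : ℝ) ^ vmE k r := by
  obtain ⟨C, hC, hrec⟩ := recur
  have hC0 : (0 : ℝ) ≤ C := by positivity
  refine ⟨(C : ℝ) + 24, by linarith, ?_⟩
  intro k r hk hr
  induction r, hr using Nat.le_induction with
  | base =>
    intro _ P hP
    have hP1 : (1 : ℝ) ≤ P := by exact_mod_cast hP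
    have hk1 : (2 : ℝ) ≤ k := by exact_mod_cast hk
    rw [mul_one]
    have h1 : (J k k P : ℝ) ≤ (k.factorial : ℝ) * (P : ℝ) ^ k := by exact_mod_cast J_base k P
    refine h1.trans ?_
    have h2 := vm_fact hk
    have h3 : (P : ℝ) ^ k ≤ (P : ℝ) ^ vmE k 1 := by
      rw [← Real.rpow_natCast]
      refine Real.rpow_le_rpow_of_exponent_le hP1 ?_
      have := vm_E_ge hk 1
      push_cast at this
      linarith
    refine mul_le_mul (h2.trans (Real.exp_le_exp.mpr ?_)) h3 (by positivity) (Real.exp_pos _).le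
    have h4 : (0 : ℝ) ≤ (k : ℝ) ^ 3 := by positivity
    have h5 : (0 : ℝ) ≤ (k : ℝ) ^ 4 := by positivity
    push_cast
    nlinarith [mul_nonneg hC0 h4, mul_nonneg hC0 h5]
  | succ r hr ih =>
    intro hr4 P hP
    exact vm_step le_rfl hrec hk hr hr4 (ih (by omega)) hP

theorem vmvt : ∃ A : ℝ, 1 ≤ A ∧ ∀ k P : ℕ, 2 ≤ k → 1 ≤ P →
    (J k (4 * k ^ 2) P : ℝ) ≤ Real.exp (A * k ^ 4) *
      (P : ℝ) ^ ((8 * k ^ 2 : ℝ) - k * (k + 1) / 2 * (1 - (1 - 1 / (k : ℝ)) ^ (4 * k))) := by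
  obtain ⟨A, hA, h⟩ := vm_main
  refine ⟨5 * A, by linarith, ?_⟩
  intro k P hk hP
  have hk1 : (2 : ℝ) ≤ k := by exact_mod_cast hk
  have h1 := h k (4 * k) hk (by omega) le_rfl P hP
  have h2 : k * (4 * k) = 4 * k ^ 2 := by ring
  rw [h2] at h1
  have h3 : vmE k (4 * k) =
      (8 * k ^ 2 : ℝ) - k * (k + 1) / 2 * (1 - (1 - 1 / (k : ℝ)) ^ (4 * k)) := by
    unfold vmE
    push_cast
    ring
  have h4 : A * ((k : ℝ) ^ 4 + ((4 * k : ℕ) : ℝ) * (k : ℝ) ^ 3) = 5 * A * k ^ 4 := by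
    push_cast
    ring
  rw [h3, h4] at h1
  exact h1

end Pool.Agent.H76.VK
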