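import Mathlib
import Pool.Agent.H76.VK.Vmvt
import Pool.Agent.H48.VB.Main
import Pool.Agent.H48.VR.Rich

/-!
# Richert: the bound of Richert for `ζ` near `Re s = 1`

`vmvt` (Vinogradov's mean value theorem) → `vksum` (`H48/VB/Main`) → `richert_of` (`H48/VR/Rich`).
-/

set_option autoImplicit false

open Complex

namespace Pool.Agent.H76.VK

/-- Richert's bound `ζ(σ+it) ≪ t^(B (1-σ)^(3/2)) log t` -/
theorem richert : ∃ B C : ℝ, 1 ≤ B ∧ 1 ≤ C ∧ ∀ s : ℂ, 1 / 2 ≤ s.re → 2 ≤ |s.im| →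
    ‖riemannZeta s‖ ≤ C * |s.im| ^ (B * max (1 - s.re) 0 ^ (3 / 2 : ℝ)) * Real.log |s.im| := by
  obtain ⟨A, hA, hm⟩ := vmvt
  have hMVB : Pool.Agent.H48.VB.MVB A := fun k P hk hP => hm k P hk hP
  obtain ⟨c, C, hc, hc2, hC, hz⟩ := Pool.Agent.H48.VB.vksum (by linarith : (0 : ℝ) ≤ A) hMVB
  exact Pool.Agent.H48.VR.richert_of hc hc2 hC hz

end Pool.Agent.H76.VK
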